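import Pool.Agent.MP_fcd29e_an.H11.CS

/-!
Second derivatives of functions that vanish to second order along a subspace.
-/

set_option autoImplicit false

open Set Filter Topology Metric Pool.Agent.MP_fcd29e_an.H11
open scoped ContDiff

namespace Pool.Agent.MP_fcd29e_an.H26

noncomputable section

namespace CLE

section gen

variable {X F : Type} [NormedAddCommGroup X] [NormedSpace ℝ X] [NormedAddCommGroup F]
  [NormedSpace ℝ F]

/-- The derivative along the range of `P`. -/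
def T (P : X →L[ℝ] X) (g : X → F) : X → (X →L[ℝ] F) := fun p => (fderiv ℝ g p).comp P

theorem sm_fderiv {g : X → F} {p₀ : X} (h : Sm g p₀) : Sm (fderiv ℝ g) p₀ :=
  h.mono fun _ hq => hq.fderiv_right (m := ∞) (by simp)

theorem sm_T (P : X →L[ℝ] X) {g : X → F} {p₀ : X} (h : Sm g p₀) : Sm (T P g) p₀ :=
  (sm_fderiv h).mono fun _ hq => hq.clm_comp contDiffAt_const

theorem fderiv_T (P : X →L[ℝ] X) {g : X → F} {p : X} (h : ContDiffAt ℝ ∞ g p) (n y : X) :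
    fderiv ℝ (T P g) p n y = fderiv ℝ (fderiv ℝ g) p n (P y) := by
  have h1 : DifferentiableAt ℝ (fderiv ℝ g) p :=
    (h.fderiv_right (m := ∞) (by simp)).differentiableAt (by simp)
  have h2 := h1.hasFDerivAt.clm_comp (hasFDerivAt_const P p)
  change fderiv ℝ (fun q => (fderiv ℝ g q).comp P) p n y = _
  rw [h2.fderiv]
  simp

theorem symm {g : X → F} {p : X} (h : ContDiffAt ℝ ∞ g p) (v w : X) :
    fderiv ℝ (fderiv ℝ g) p v w = fderiv ℝ (fderiv ℝ g) p w v :=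
  (h.isSymmSndFDerivAt (by
    rw [minSmoothness_of_isRCLikeNormedField]
    exact WithTop.coe_le_coe.2 (le_top : ((2 : ℕ) : ℕ∞) ≤ ⊤))).eq v w

theorem van_T (P : X →L[ℝ] X) {A : Set X} (hA : ∀ q ∈ A, ∀ y, q + P y ∈ A) {g : X → F} {p₀ : X}
    (h : ∀ᶠ q in 𝓝 p₀, q ∈ A → g q = 0) : ∀ᶠ q in 𝓝 p₀, q ∈ A → T P g q = 0 := by
  filter_upwards [h.eventually_nhds] with q hq hqA
  by_cases hd : DifferentiableAt ℝ g q
  · have h1 : HasFDerivAt (fun y => q + P y) P 0 := P.hasFDerivAt.const_add q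
    have h2 : HasFDerivAt g (fderiv ℝ g q) (q + P 0) := by
      rw [map_zero, add_zero]; exact hd.hasFDerivAt
    have h3 := h2.comp 0 h1
    have h4 : Tendsto (fun y => q + P y) (𝓝 0) (𝓝 q) := by
      have := h1.continuousAt.tendsto
      rwa [map_zero, add_zero] at this
    have h5 : (g ∘ fun y => q + P y) =ᶠ[𝓝 0] fun _ => 0 :=
      (h4.eventually hq).mono fun y hy => hy (hA q hqA y)
    exact h3.unique ((hasFDerivAt_const (0 : F) (0 : X)).congr_of_eventuallyEq h5)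
  · rw [T, fderiv_zero_of_not_differentiableAt hd, ContinuousLinearMap.zero_comp]

theorem van_DT (P : X →L[ℝ] X) {A : Set X} (hA : ∀ q ∈ A, ∀ y, q + P y ∈ A) {g : X → F} {p₀ : X}
    (hs : Sm g p₀) (h : ∀ᶠ q in 𝓝 p₀, q ∈ A → fderiv ℝ g q = 0) :
    ∀ᶠ q in 𝓝 p₀, q ∈ A → fderiv ℝ (T P g) q = 0 := by
  filter_upwards [van_T P hA h, hs] with q h1 h2 hq
  ext n y
  have h3 : fderiv ℝ (fderiv ℝ g) q (P y) = 0 := congrArg (fun L => L y) (h1 hq)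
  rw [fderiv_T P h2, symm h2, h3]
  rfl

theorem mean {g : X → F} {p₀ : X} (hs : Sm g p₀) {N : X → ℝ} {ρ : X → X}
    (hρ : Tendsto ρ (𝓝 p₀) (𝓝 p₀)) (hN : ∀ᶠ q in 𝓝 p₀, ‖fderiv ℝ g q‖ ≤ N q)
    (hm : ∀ p, ∀ q ∈ segment ℝ (ρ p) p, N q ≤ N p) (h0 : ∀ᶠ p in 𝓝 p₀, g (ρ p) = 0) :
    ∀ᶠ p in 𝓝 p₀, ‖g p‖ ≤ N p * ‖p - ρ p‖ := by
  obtain ⟨ε, hε, hb⟩ := Metric.eventually_nhds_iff_ball.1 (hs.and hN)
  filter_upwards [ball_mem_nhds p₀ hε, hρ.eventually (ball_mem_nhds p₀ hε), h0] with p h1 h2 h3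
  have hsub : segment ℝ (ρ p) p ⊆ ball p₀ ε := (convex_ball p₀ ε).segment_subset h2 h1
  have := (convex_segment (ρ p) p).norm_image_sub_le_of_norm_fderiv_le (𝕜 := ℝ) (f := g)
    (C := N p) (fun q hq => (hb q (hsub hq)).1.differentiableAt (by simp))
    (fun q hq => (hb q (hsub hq)).2.trans (hm p q hq)) (left_mem_segment ℝ _ _)
    (right_mem_segment ℝ _ _)
  rwa [h3, sub_zero] at this

theorem bdd {g : X → F} {p₀ : X} (hs : Sm g p₀) :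
    ∃ C, 0 ≤ C ∧ ∀ᶠ q in 𝓝 p₀, ‖g q‖ ≤ C :=
  ⟨‖g p₀‖ + 1, by positivity,
    (hs.self_of_nhds.continuousAt.norm.eventually_lt_const (lt_add_one _)).mono fun _ h => h.le⟩

theorem first {g : X → F} {p₀ : X} (hs : Sm g p₀) {ρ : X → X}
    (hρ : Tendsto ρ (𝓝 p₀) (𝓝 p₀)) (h0 : ∀ᶠ p in 𝓝 p₀, g (ρ p) = 0) :
    ∃ C, 0 ≤ C ∧ ∀ᶠ p in 𝓝 p₀, ‖g p‖ ≤ C * ‖p - ρ p‖ := by
  obtain ⟨C, hC, hb⟩ := bdd (sm_fderiv hs)
  exact ⟨C, hC, mean hs (N := fun _ => C) hρ hb (fun _ _ _ => le_rfl) h0⟩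

theorem abs_bil (H : X →L[ℝ] X →L[ℝ] ℝ) {C : ℝ} (h : ‖H‖ ≤ C) (v w : X) :
    |H v w| ≤ C * ‖v‖ * ‖w‖ :=
  (H.le_opNorm₂ v w).trans (by gcongr)

end gen

section model

variable {U W κ : Type} [NormedAddCommGroup U] [NormedSpace ℝ U] [NormedAddCommGroup W]
  [NormedSpace ℝ W] [Fintype κ]

/-- Projection onto the first factor. -/
def P1 (U W : Type) [NormedAddCommGroup U] [NormedSpace ℝ U] [NormedAddCommGroup W]
    [NormedSpace ℝ W] : (ℂ × U × W) →L[ℝ] (ℂ × U × W) :=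
  (ContinuousLinearMap.fst ℝ ℂ (U × W)).prod 0

/-- Projection onto the first two factors. -/
def P2 (U W : Type) [NormedAddCommGroup U] [NormedSpace ℝ U] [NormedAddCommGroup W]
    [NormedSpace ℝ W] : (ℂ × U × W) →L[ℝ] (ℂ × U × W) :=
  (ContinuousLinearMap.fst ℝ ℂ (U × W)).prod
    (((ContinuousLinearMap.fst ℝ U W).comp (ContinuousLinearMap.snd ℝ ℂ (U × W))).prod 0)

theorem P1_apply (p : ℂ × U × W) : P1 U W p = (p.1, 0, 0) := rfl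

theorem P2_apply (p : ℂ × U × W) : P2 U W p = (p.1, p.2.1, 0) := rfl

omit [NormedSpace ℝ W] in
theorem nn_nonneg (Jr : U →L[ℝ] (κ → ℝ)) (p : ℂ × U × W) : 0 ≤ nn Jr p := by
  unfold nn; positivity

theorem foot [FiniteDimensional ℝ U] (Jr : U →L[ℝ] (κ → ℝ)) :
    ∃ (π : ℂ × U × W → ℂ × U × W) (C : ℝ), 0 ≤ C ∧ Continuous π ∧ (∀ p, π p ∈ Kc Jr) ∧
      (∀ p ∈ Kc Jr, π p = p) ∧ (∀ p, ‖p - π p‖ ≤ C * nn Jr p) ∧
      ∀ p, ∀ q ∈ segment ℝ (π p) p, nn Jr q ≤ nn Jr p := by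
  obtain ⟨τ, hτ⟩ := (Jr : U →ₗ[ℝ] (κ → ℝ)).rangeRestrict.exists_rightInverse_of_surjective
    (LinearMap.range_rangeRestrict _)
  obtain ⟨σ₀, hσ₀⟩ := LinearMap.exists_extend τ
  let σ := LinearMap.toContinuousLinearMap σ₀
  have hσ : ∀ u, Jr (σ (Jr u)) = Jr u := fun u => by
    have h1 : σ (Jr u) = τ ⟨Jr u, u, rfl⟩ := LinearMap.congr_fun hσ₀ ⟨Jr u, u, rfl⟩
    have h2 := congrArg Subtype.val (LinearMap.congr_fun hτ ⟨Jr u, u, rfl⟩)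
    rw [h1]
    exact h2
  have hK : ∀ p : ℂ × U × W, Jr (p.2.1 - σ (Jr p.2.1)) = 0 := fun p => by
    rw [map_sub, hσ, sub_self]
  refine ⟨fun p => (p.1, p.2.1 - σ (Jr p.2.1), 0), ‖σ‖ + 1, by positivity, by fun_prop,
    fun p => ⟨hK p, rfl⟩, fun p hp => ?_, fun p => ?_, fun p q hq => ?_⟩
  · refine Prod.ext rfl (Prod.ext ?_ hp.2.symm)
    change p.2.1 - σ (Jr p.2.1) = p.2.1
    rw [hp.1, map_zero, sub_zero]
  · have h1 : p - (p.1, p.2.1 - σ (Jr p.2.1), 0) = (0, σ (Jr p.2.1), p.2.2) :=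
      Prod.ext (sub_self _) (Prod.ext (sub_sub_cancel _ _) (sub_zero _))
    have h2 := σ.le_opNorm (Jr p.2.1)
    have h3 := norm_nonneg σ
    have h4 := norm_nonneg (Jr p.2.1)
    have h5 := norm_nonneg p.2.2
    have h6 := mul_nonneg h3 h4
    have h7 := mul_nonneg h3 h5
    rw [h1, Prod.norm_def, Prod.norm_def, nn]
    refine max_le ?_ (max_le ?_ ?_)
    · rw [norm_zero]; positivity
    · change ‖σ (Jr p.2.1)‖ ≤ _
      nlinarith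
    · change ‖p.2.2‖ ≤ _
      nlinarith
  · obtain ⟨s, t, hs, ht, hst, rfl⟩ := hq
    have h1 : Jr (s • (p.2.1 - σ (Jr p.2.1)) + t • p.2.1) = t • Jr p.2.1 := by
      rw [map_add, map_smul, map_smul, hK, smul_zero, zero_add]
    change ‖Jr (s • (p.2.1 - σ (Jr p.2.1)) + t • p.2.1)‖ + ‖s • (0 : W) + t • p.2.2‖ ≤
      ‖Jr p.2.1‖ + ‖p.2.2‖
    rw [h1, smul_zero, zero_add, norm_smul, norm_smul, Real.norm_of_nonneg ht]
    have h4 := mul_nonneg hs (norm_nonneg (Jr p.2.1))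
    have h5 := mul_nonneg hs (norm_nonneg p.2.2)
    have : t = 1 - s := by linarith
    rw [this]
    nlinarith

theorem seg_P2 (Jr : U →L[ℝ] (κ → ℝ)) (p : ℂ × U × W) :
    ∀ q ∈ segment ℝ (P2 U W p) p, nn Jr q ≤ nn Jr p := by
  rintro q ⟨s, t, hs, ht, hst, rfl⟩
  change ‖Jr (s • p.2.1 + t • p.2.1)‖ + ‖s • (0 : W) + t • p.2.2‖ ≤ ‖Jr p.2.1‖ + ‖p.2.2‖
  rw [← add_smul, hst, one_smul, smul_zero, zero_add, norm_smul, Real.norm_of_nonneg ht]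
  have h5 := mul_nonneg hs (norm_nonneg p.2.2)
  have : t = 1 - s := by linarith
  rw [this]
  nlinarith

theorem norm_sub_P2 (p : ℂ × U × W) : ‖p - P2 U W p‖ = ‖p.2.2‖ := by
  have h1 : p - P2 U W p = (0, 0, p.2.2) :=
    Prod.ext (sub_self _) (Prod.ext (sub_self _) (sub_zero _))
  rw [h1]
  simp [Prod.norm_def]

theorem alg1 {x y z n α β η o C₁ C₂ M : ℝ} (hC₁ : 0 ≤ C₁) (hC₂ : 0 ≤ C₂) (hM : 0 ≤ M)
    (hβ : β ^ 2 ≤ η ^ 2 + o ^ 2) (hx : |x| ≤ C₂ * n * n * α * α) (hy : |y| ≤ C₁ * n * β * α)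
    (hz : |z| ≤ M * β * β) :
    |x + y + (y + z)| ≤ (C₁ + C₂ + M) * (n ^ 2 * α ^ 2 + η ^ 2 + o ^ 2) := by
  have h0 : |x + y + (y + z)| ≤ |x| + |y| + (|y| + |z|) :=
    (abs_add_le _ _).trans (add_le_add (abs_add_le _ _) (abs_add_le _ _))
  have h1 : 0 ≤ C₁ * (n * α - β) ^ 2 := by positivity
  have h2 := mul_le_mul_of_nonneg_left hβ hC₁
  have h3 := mul_le_mul_of_nonneg_left hβ hM
  have h4 : 0 ≤ C₂ * (η ^ 2 + o ^ 2) := by positivity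
  have h5 : 0 ≤ M * (n ^ 2 * α ^ 2) := by positivity
  nlinarith

theorem alg2 {aa ab bb ca bc cc n w α η o C₁ C₃ M : ℝ} (hC₁ : 0 ≤ C₁) (hC₃ : 0 ≤ C₃) (hM : 0 ≤ M)
    (hw : 0 ≤ w) (hn : w ≤ n) (hα : 0 ≤ α) (hη : 0 ≤ η) (ho : 0 ≤ o)
    (h1 : |aa| ≤ C₁ * n * w * α * α) (h2 : |ab| ≤ C₃ * w * α * η) (h3 : |bb| ≤ C₃ * w * η * η)
    (h4 : |ca| ≤ C₁ * n * o * α) (h5 : |bc| ≤ M * η * o) (h6 : |cc| ≤ M * o * o) :
    |aa + 2 * ab + bb + 2 * ca + 2 * bc + cc| ≤ 2 * (C₁ + C₃ + M) *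
      ((n * α + η + o) * (w * α + o) + n * (n ^ 2 * α ^ 2 + η ^ 2 + o ^ 2)) := by
  have hn0 : 0 ≤ n := hw.trans hn
  set Q := (n * α + η + o) * (w * α + o) + n * (n ^ 2 * α ^ 2 + η ^ 2 + o ^ 2) with hQ
  have m1 : 0 ≤ n * w * α * α := by positivity
  have m2 : 0 ≤ w * α * η := by positivity
  have m3 : 0 ≤ n * η * η := by positivity
  have m4 : 0 ≤ n * o * α := by positivity
  have m5 : 0 ≤ η * o := by positivity
  have m6 : 0 ≤ o * o := by positivity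
  have m7 : 0 ≤ w * α * o + n * (n ^ 2 * α ^ 2 + o ^ 2) := by positivity
  have m8 : w * η * η ≤ n * η * η := by gcongr
  have e : Q = n * w * α * α + w * α * η + n * η * η + n * o * α + η * o + o * o +
      (w * α * o + n * (n ^ 2 * α ^ 2 + o ^ 2)) := by rw [hQ]; ring
  have q1 : C₁ * (n * w * α * α + 2 * (n * o * α)) ≤ C₁ * (2 * Q) :=
    mul_le_mul_of_nonneg_left (by linarith) hC₁
  have q2 : C₃ * (2 * (w * α * η) + w * η * η) ≤ C₃ * (2 * Q) :=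
    mul_le_mul_of_nonneg_left (by linarith) hC₃
  have q3 : M * (2 * (η * o) + o * o) ≤ M * (2 * Q) :=
    mul_le_mul_of_nonneg_left (by linarith) hM
  have a1 := abs_le.1 h1
  have a2 := abs_le.1 h2
  have a3 := abs_le.1 h3
  have a4 := abs_le.1 h4
  have a5 := abs_le.1 h5
  have a6 := abs_le.1 h6
  refine abs_le.2 ⟨?_, ?_⟩ <;> linarith [a1.1, a1.2, a2.1, a2.2, a3.1, a3.2, a4.1, a4.2, a5.1,
    a5.2, a6.1, a6.2]

end model

end CLE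

open CLE in
theorem sle (hHS : SHS) : SLE := by
  have _ := hHS
  intro U W κ _ _ _ _ _ _ _ Jr f p₀ hp₀ hs hK
  obtain ⟨π, C₀, hC₀, hπc, hπK, hπfix, hπn, hπs⟩ := foot (W := W) Jr
  have hπ : Tendsto π (𝓝 p₀) (𝓝 p₀) := by
    have := hπc.tendsto p₀
    rwa [hπfix p₀ hp₀] at this
  have hA : ∀ q ∈ Kc Jr, ∀ y, q + P1 U W y ∈ Kc Jr := fun q hq y =>
    ⟨by rw [P1_apply]; simpa using hq.1, by rw [P1_apply]; simpa using hq.2⟩
  have s1 := sm_T (P1 U W) hs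
  have s2 := sm_T (P1 U W) s1
  have k1 := van_T (P1 U W) hA (hK.mono fun q h hq => (h hq).1)
  have d1 := van_DT (P1 U W) hA hs (hK.mono fun q h hq => (h hq).2)
  have k2 := van_T (P1 U W) hA k1
  have d2 := van_DT (P1 U W) hA s1 d1
  obtain ⟨M, hM, bM⟩ := bdd (sm_fderiv (sm_fderiv hs))
  obtain ⟨A₁, hA₁, b1⟩ := first (sm_fderiv s1) hπ ((hπ.eventually d1).mono fun p h => h (hπK p))
  obtain ⟨A₂, hA₂, b2⟩ := first (sm_fderiv s2) hπ ((hπ.eventually d2).mono fun p h => h (hπK p))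
  set C₁ := (A₁ + A₂) * C₀ with hC₁
  have hC₁' : 0 ≤ C₁ := by positivity
  have hle : ∀ p, ∀ A, 0 ≤ A → A ≤ A₁ + A₂ → A * ‖p - π p‖ ≤ C₁ * nn Jr p := fun p A h1 h2 => by
    rw [hC₁, mul_assoc]
    exact mul_le_mul h2 (hπn p) (norm_nonneg _) (by positivity)
  have c1 : ∀ᶠ p in 𝓝 p₀, ‖fderiv ℝ (T (P1 U W) f) p‖ ≤ C₁ * nn Jr p :=
    b1.mono fun p h => h.trans (hle p A₁ hA₁ (by linarith))
  have c2 : ∀ᶠ p in 𝓝 p₀, ‖fderiv ℝ (T (P1 U W) (T (P1 U W) f)) p‖ ≤ C₁ * nn Jr p :=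
    b2.mono fun p h => h.trans (hle p A₂ hA₂ (by linarith))
  have na : ∀ z : ℂ, ‖((z, 0, 0) : ℂ × U × W)‖ = ‖z‖ := fun z => by simp [Prod.norm_def]
  have nb : ∀ u : U, ‖((0, u, 0) : ℂ × U × W)‖ = ‖u‖ := fun z => by simp [Prod.norm_def]
  have nc : ∀ w : W, ‖((0, 0, w) : ℂ × U × W)‖ = ‖w‖ := fun z => by simp [Prod.norm_def]
  constructor
  · have c3 := mean s2 (N := fun p => C₁ * nn Jr p) hπ c2
      (fun p q hq => mul_le_mul_of_nonneg_left (hπs p q hq) hC₁')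
      ((hπ.eventually k2).mono fun p h => h (hπK p))
    refine ⟨C₁ + C₁ * C₀ + M, ?_⟩
    filter_upwards [hs, bM, c1, c3] with p h1 h2 h3 h4 v
    have hn := nn_nonneg Jr p
    have h5 : ‖T (P1 U W) (T (P1 U W) f) p‖ ≤ C₁ * C₀ * nn Jr p * nn Jr p := by
      refine h4.trans ((mul_le_mul_of_nonneg_left (hπn p) (by positivity)).trans_eq ?_)
      ring
    have e : v = ((v.1, 0, 0) : ℂ × U × W) + (0, v.2.1, v.2.2) := by
      refine Prod.ext ?_ (Prod.ext ?_ ?_) <;> simp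
    have x1 := abs_bil _ h5 (v.1, 0, 0) (v.1, 0, 0)
    have x2 := abs_bil _ h3 (0, v.2.1, v.2.2) (v.1, 0, 0)
    have x3 := abs_bil _ h2 (0, v.2.1, v.2.2) (0, v.2.1, v.2.2)
    change |fderiv ℝ (T (P1 U W) f) p (v.1, 0, 0) (v.1, 0, 0)| ≤ _ at x1
    rw [fderiv_T _ h1, P1_apply, na] at x1 x2
    have hβ : ‖((0, v.2.1, v.2.2) : ℂ × U × W)‖ ^ 2 ≤ ‖v.2.1‖ ^ 2 + ‖v.2.2‖ ^ 2 := by
      have : ‖((0, v.2.1, v.2.2) : ℂ × U × W)‖ = max ‖v.2.1‖ ‖v.2.2‖ := by simp [Prod.norm_def]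
      rw [this]
      rcases max_choice ‖v.2.1‖ ‖v.2.2‖ with h | h <;> rw [h]
      · exact le_add_of_nonneg_right (sq_nonneg _)
      · exact le_add_of_nonneg_left (sq_nonneg _)
    have := alg1 hC₁' (mul_nonneg hC₁' hC₀) hM hβ x1 x2 x3
    refine le_trans (le_of_eq ?_) this
    congr 1
    unfold H11.hs
    conv_lhs => rw [e]
    simp only [map_add, add_apply]
    rw [symm h1 (v.1, 0, 0) (0, v.2.1, v.2.2)]
  · intro hS
    have hρ : Tendsto (P2 U W) (𝓝 p₀) (𝓝 p₀) := by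
      have h1 := (P2 U W).continuous.tendsto p₀
      have h2 : P2 U W p₀ = p₀ := Prod.ext rfl (Prod.ext rfl hp₀.2.symm)
      rwa [h2] at h1
    have hS' : ∀ᶠ p in 𝓝 p₀, p ∈ {q : ℂ × U × W | q.2.2 = 0} → f p = 0 := hS
    have hB1 : ∀ q ∈ {q : ℂ × U × W | q.2.2 = 0}, ∀ y,
        q + P1 U W y ∈ {q : ℂ × U × W | q.2.2 = 0} := fun q hq y => by
      rw [P1_apply]; simpa using hq
    have hB2 : ∀ q ∈ {q : ℂ × U × W | q.2.2 = 0}, ∀ y,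
        q + P2 U W y ∈ {q : ℂ × U × W | q.2.2 = 0} := fun q hq y => by
      rw [P2_apply]; simpa using hq
    have l1 := van_T _ hB1 (van_T _ hB1 hS')
    have l2 := van_T _ hB2 (van_T _ hB2 hS')
    have c4 := mean s2 (N := fun p => C₁ * nn Jr p) hρ c2
      (fun p q hq => mul_le_mul_of_nonneg_left (seg_P2 Jr p q hq) hC₁')
      ((hρ.eventually l1).mono fun p h => h rfl)
    obtain ⟨C₃, hC₃, c5⟩ := first (sm_T (P2 U W) (sm_T (P2 U W) hs)) hρ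
      ((hρ.eventually l2).mono fun p h => h rfl)
    refine ⟨2 * (C₁ + C₃ + M), ?_⟩
    filter_upwards [hs, bM, c1, c4, c5] with p h1 h2 h3 h4 h5 v
    rw [norm_sub_P2] at h4 h5
    have e : v = ((v.1, 0, 0) : ℂ × U × W) + (0, v.2.1, 0) + (0, 0, v.2.2) := by
      refine Prod.ext ?_ (Prod.ext ?_ ?_) <;> simp
    have x1 := abs_bil _ h4 (v.1, 0, 0) (v.1, 0, 0)
    have x2 := abs_bil _ h5 (v.1, 0, 0) (0, v.2.1, 0)
    have x3 := abs_bil _ h5 (0, v.2.1, 0) (0, v.2.1, 0)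
    have x4 := abs_bil _ h3 (0, 0, v.2.2) (v.1, 0, 0)
    have x5 := abs_bil _ h2 (0, v.2.1, 0) (0, 0, v.2.2)
    have x6 := abs_bil _ h2 (0, 0, v.2.2) (0, 0, v.2.2)
    change |fderiv ℝ (T (P1 U W) f) p (v.1, 0, 0) (v.1, 0, 0)| ≤ _ at x1
    change |fderiv ℝ (T (P2 U W) f) p (v.1, 0, 0) (0, v.2.1, 0)| ≤ _ at x2
    change |fderiv ℝ (T (P2 U W) f) p (0, v.2.1, 0) (0, v.2.1, 0)| ≤ _ at x3
    rw [fderiv_T _ h1, P1_apply] at x1 x4
    rw [fderiv_T _ h1, P2_apply] at x2 x3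
    simp only [na, nb, nc] at x1 x2 x3 x4 x5 x6
    have := alg2 hC₁' hC₃ hM (norm_nonneg p.2.2)
      (show ‖p.2.2‖ ≤ nn Jr p from le_add_of_nonneg_left (norm_nonneg _)) (norm_nonneg v.1)
      (norm_nonneg v.2.1) (norm_nonneg v.2.2) x1 x2 x3 x4 x5 x6
    refine le_trans (le_of_eq ?_) this
    congr 1
    unfold H11.hs
    conv_lhs => rw [e]
    simp only [map_add, add_apply]
    rw [symm h1 (0, v.2.1, 0) (v.1, 0, 0), symm h1 (v.1, 0, 0) (0, 0, v.2.2),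
      symm h1 (0, 0, v.2.2) (0, v.2.1, 0)]
    ring

end

end Pool.Agent.MP_fcd29e_an.H26
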