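import Pool.Agent.MP_fcd29e_an.H31.Spec3
import Pool.Agent.MP_fcd29e_an.H67.LT

/-!
Line bundles, top degree, for an abstract Sobolev class.
-/

set_option autoImplicit false

open MeasureTheory Complex Set Filter Topology Metric
open scoped ContDiff ComplexConjugate ENNReal NNReal

namespace Pool.Agent.MP_fcd29e_an.H26

open Pool.Agent.MP_fcd29e_an.H81 Pool.Agent.MP_fcd29e_an.H31 Pool.Agent.MP_fcd29e_an.H67

noncomputable section

namespace LTgA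

variable {N : ℕ} {S : (E N → ℂ) → Prop}

theorem cls_neg (C : Cls S) {f : E N → ℂ} (hf : S f) : S fun z => -f z := by
  simpa using C.mul _ f (contDiffOn_const (c := (-1 : ℂ))) hf

theorem cls_wd (C : Cls S) {q : ℕ} {γ : Fin N → E N → ℂ} {f : Arr N q}
    (hγ : ∀ j, ContDiffOn ℝ ∞ (γ j) (E0 N)) (hf : ∀ J, S (f J))
    (J : Fin (q + 1) → Fin N) : S (wd γ f J) := by
  unfold wd wdA
  exact C.sum _ Finset.univ _ fun _ _ => C.mul _ _ (contDiffOn_const.mul (hγ _)) (hf _)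

theorem cls_ib (C : Cls S) {q : ℕ} {f : Arr N (q + 1)} (hf : ∀ J, S (f J))
    (J : Fin q → Fin N) : S (ib f J) := by
  unfold ib ibA
  exact C.sum _ Finset.univ _ fun _ _ => C.mul _ _ (smooth_conj _).contDiffOn (hf _)

theorem solve (L : Lv1) (C : Cls S) (q : ℕ) (m : ℤ) (f : Arr N (q + 1)) (hf : HB (E0 N) m f)
    (hs : ∀ J, S (f J)) (h1 : -(2 * N : ℤ) < m - (q + 1 : ℕ))
    (h2 : m - (q + 1 : ℕ) < -1) (hc : DB (E0 N) f 0) (κ : ℝ → ℝ) (hκ : Kap κ) (hF : Flux κ f) :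
    ∃ u : Arr N q, HB (E0 N) m u ∧ (∀ J, S (u J)) ∧ DB (E0 N) u f := by
  obtain ⟨yh, ya, yd⟩ := L.new N q m f hf.hom
  have fl : ∀ J, L2 (E0 N) (f J) := fun J => C.l2 _ (hs J)
  replace ya := ya fun z hz => hb_alt hf hz
  replace yd := yd κ hκ fl h1 h2 hc hF
  have ys : ∀ J, S (Nw f J) := fun J =>
    C.sum _ Finset.univ _ fun j _ => C.ec j _ (hs _)
      ((L.t3.2 N).2.1 m (-(q + 1 : ℕ)) _ (fl _) (hf.hom _) (by linarith) (by linarith))
  have yl : ∀ J, L2 (E0 N) (Nw f J) := fun J => C.l2 _ (ys J)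
  have F := L.frm N q (E0 N) isOpen_E0 zero_notMem_E0
  have wd1 := ((F.1 _ _ yd).2.2.2 yl fl).2.2
  have wh : ∀ J, Hom (E0 N) m (-(q + 1 : ℕ)) (wd thb (Nw f) J) :=
    hom_wd hom_thb yh (by ring) (by push_cast; ring)
  have ws : ∀ J, S (wd thb (Nw f) J) := cls_wd C smooth_thb ys
  have wa : ∀ z : E N, altA fun J => wd thb (Nw f) J z := fun z =>
    ((L.al1 N q 0 (fun j => thb j z)).1 _).1 (ya z)
  have ud := F.2.2.2 m _ _ cone_E0 wd1 (fun J => ⟨C.l2 _ (ws J), wh J⟩)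
    (fun J => C.l2 _ (cls_neg C (cls_wd C smooth_thb hs J))) fun z _ => wa z
  refine ⟨ib (wd thb (Nw f)), ⟨hom_ib wh (by push_cast; ring), fun J σ z _ => ?_,
    fun J a z _ => ?_⟩, cls_ib C ws, ?_⟩
  · exact ((L.al1 N q (fun l => conj (z l)) 0).2 _ (wa z)).1 J σ
  · exact ((L.al1 N q (fun l => conj (z l)) 0).2 _ (wa z)).2.1 J a
  · refine (F.1 _ _ ud).1 _ _ (fun J => ae_of_all _ fun _ _ => rfl)
      fun J => ae_of_all _ fun z hz => ?_
    have := ((L.al1 N (q + 1) (fun l => conj (z l)) (fun j => thb j z)).1 _).2.1 (hb_hor hf hz) J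
    rw [sum_thb hz, one_mul] at this
    rw [← this]
    simp only [ib, ibA, wd, mul_neg, Finset.sum_neg_distrib, neg_neg]

section top
variable {n : ℕ} {S : (E (n + 1) → ℂ) → Prop}

/-- The form can be changed off the domain so that its residue vanishes. -/
theorem correct (L : Lv1) (C : Cls S) {ρ : E (n + 1) → ℝ} (hρ : Dom ρ) {m : ℤ}
    {f : Arr (n + 1) n} (hf : HB (E0 _) m f) (hs : ∀ J, S (f J)) {κ : ℝ → ℝ} (hκ : Kap κ) :
    ∃ g : Arr (n + 1) n, HB (E0 _) m g ∧ (∀ J, S (g J)) ∧ Flux κ g ∧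
      ∀ J, ∀ z ∈ Om ρ, g J z = f J z := by
  by_cases hm : m = -(n + 1 : ℕ)
  swap
  · refine ⟨f, hf, hs, flux L hf hκ ?_, fun _ _ _ => rfl⟩
    refine (L.t2 (n + 1) (m + 1) (-n)).2 _ κ (Or.inr (Nat.le_add_left 1 n))
      (((L.t2 (n + 1) (m + 1) (-n)).1 _ isOpen_E0 cone_E0).1 _ (hom_Sx hf)) fun h => hm ?_
    push_cast
    linarith
  subst hm
  have hM := mass_ne L hρ hκ
  set M := ∫ z : E (n + 1), (κ (‖z‖ ^ 2) : ℂ) * ((bR ρ z : ℂ) * ((‖z‖ ^ 2 : ℝ) : ℂ)) with hMe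
  set c : ℂ := (∫ z : E (n + 1), (κ (‖z‖ ^ 2) : ℂ) * Sx f z) / M with hc
  have hg := hb_gC L hρ c
  have hb : HB (E0 _) (-(n + 1 : ℕ)) fun J z => f J z - gC ρ c J z := by
    refine ⟨fun J => hom_sub (hf.hom J) (hg.hom J), fun J σ z hz => ?_, fun J a z hz => ?_⟩
    · simp only [hf.alt J σ z hz, hg.alt J σ z hz]
      ring
    · simp only [mul_sub, Finset.sum_sub_distrib, hf.hor J a z hz, hg.hor J a z hz, sub_zero]
  refine ⟨_, hb, fun J => C.sub _ _ (hs J) (C.smooth _ (smooth_gC hρ c J)),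
    flux L hb hκ ?_, fun J z hz => ?_⟩
  · have e : ∀ z : E (n + 1), (κ (‖z‖ ^ 2) : ℂ) * Sx (fun J z => f J z - gC ρ c J z) z =
        (κ (‖z‖ ^ 2) : ℂ) * Sx f z -
          c * ((κ (‖z‖ ^ 2) : ℂ) * ((bR ρ z : ℂ) * ((‖z‖ ^ 2 : ℝ) : ℂ))) := by
      intro z
      have h1 : Sx (fun J z => f J z - gC ρ c J z) z = Sx f z - Sx (gC ρ c) z := by
        simp only [Sx, mul_sub, Finset.sum_sub_distrib]
      rw [h1, Sx_gC L]
      ring
    simp only [e]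
    rw [integral_sub (int_kap L hκ (sob_Sx L.sb (k := 0) fun J => C.l2 _ (hs J)))
      ((int_kap L hκ (sob_smooth L.sb (k := 0)
        ((smooth_bR hρ).mul smooth_normSq.contDiffOn))).const_mul c), integral_const_mul,
      ← hMe, hc, div_mul_cancel₀ _ hM, sub_self]
  · simp [gC, bR, expNegInvGlue.zero_of_nonpos hz.2.le]

end top

theorem core (L : Lv1) (p : ℕ) (ρ : E (p + 1 + 1) → ℝ) (hρ : Dom ρ)
    (S : (E (p + 1 + 1) → ℂ) → Prop) (C : Cls S) (m : ℤ)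
    (h1 : -((p + 1 + 1 : ℕ) : ℤ) ≤ m) (h2 : m ≤ -1) : LTg ρ S m p := by
  intro f hf hs
  obtain ⟨κ, hκ⟩ := L.t3.1
  obtain ⟨g, hg, gs, gF, ge⟩ := correct L C hρ hf hs hκ
  obtain ⟨u, hu, us, ud⟩ := solve L C p m g hg gs (by push_cast at h1 ⊢; linarith)
    (by push_cast; linarith) (closed L hg fun J => C.l2 _ (gs J)) κ hκ gF
  have ho := (L.c1 _ ρ hρ).1
  refine ⟨u, hu, us, ?_⟩
  have hd := ((L.frm _ p _ isOpen_E0 zero_notMem_E0).1 _ _ ud).2.1 _ ho fun z hz => hz.1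
  exact ((L.frm _ p _ ho fun h => h.1 rfl).1 _ _ hd).1 _ _ (fun J => ae_of_all _ fun _ _ => rfl)
    fun J => ae_of_all _ fun z hz => ge J z hz

end LTgA

theorem ltg (L : Lv1) : StmtLTg := fun q ρ hρ S C m h1 h2 =>
  LTgA.core L (q + 1) ρ hρ S C m h1 h2

end

end Pool.Agent.MP_fcd29e_an.H26
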