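import Pool.Agent.MP_fcd29e_an.H81.Spec

/-!
Integrals of `|ρ|^{-1/2}` against the kernel `(|x - y| + δ)^{-2N}`.
-/

set_option autoImplicit false

open Pool.Agent.MP_fcd29e_an.H81 MeasureTheory Complex Set Filter Topology Metric
open scoped ContDiff ComplexConjugate ENNReal NNReal

namespace Pool.Agent.MP_fcd29e_an.H26

/-- `|s|^{-1/2}`, infinite at zero. -/
noncomputable def hs (s : ℝ) : ℝ≥0∞ := (ENNReal.ofReal √|s|)⁻¹

theorem measurable_hs : Measurable hs := by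
  unfold hs; fun_prop

theorem hs_anti {s t : ℝ} (h : |s| ≤ |t|) : hs t ≤ hs s :=
  ENNReal.inv_le_inv.2 (ENNReal.ofReal_le_ofReal (Real.sqrt_le_sqrt h))

theorem hs_neg (s : ℝ) : hs (-s) = hs s := by simp [hs]

theorem lint_half {r : ℝ} (hr : 0 < r) : ∫⁻ s in Ioc 0 r, hs s = ENNReal.ofReal (2 * √r) := by
  have h1 : ∫⁻ s in Ioc 0 r, hs s = ∫⁻ s in Ioc 0 r, ENNReal.ofReal (s ^ (-(1 / 2) : ℝ)) := by
    refine setLIntegral_congr_fun measurableSet_Ioc fun s hs0 => ?_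
    have h0 : 0 < s := hs0.1
    simp only [hs]
    rw [abs_of_pos h0, Real.rpow_neg h0.le, ← Real.sqrt_eq_rpow,
      ENNReal.ofReal_inv_of_pos (Real.sqrt_pos.2 h0)]
  have h2 : IntervalIntegrable (fun s : ℝ => s ^ (-(1 / 2) : ℝ)) volume 0 r :=
    intervalIntegral.intervalIntegrable_rpow' (by norm_num)
  rw [h1, ← ofReal_integral_eq_lintegral_ofReal ((intervalIntegrable_iff_integrableOn_Ioc_of_le
    hr.le).1 h2) ((ae_restrict_iff' measurableSet_Ioc).2 (ae_of_all _ fun s hs0 =>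
      Real.rpow_nonneg hs0.1.le _)), ← intervalIntegral.integral_of_le hr.le,
    integral_rpow (Or.inl (by norm_num))]
  congr 1
  rw [Real.zero_rpow (by norm_num), Real.sqrt_eq_rpow]
  norm_num
  ring

theorem lint_sym {r : ℝ} (hr : 0 < r) : ∫⁻ s in Icc (-r) r, hs s ≤ ENNReal.ofReal (4 * √r) := by
  have h1 : ∫⁻ s in Ico (-r) 0, hs s = ∫⁻ s in Ioc 0 r, hs s := by
    rw [← lintegral_indicator measurableSet_Ico, ← lintegral_indicator measurableSet_Ioc,
      ← lintegral_neg_eq_self]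
    refine lintegral_congr fun s => ?_
    by_cases h : s ∈ Ioc 0 r
    · rw [indicator_of_mem h, indicator_of_mem (show -s ∈ Ico (-r) 0 from
        ⟨by linarith [h.2], by linarith [h.1]⟩), hs_neg]
    · rw [indicator_of_notMem h, indicator_of_notMem]
      exact fun h' => h ⟨by linarith [h'.2], by linarith [h'.1]⟩
  have h2 : Icc (-r) r ⊆ Ico (-r) 0 ∪ Icc 0 r := fun s h => by
    by_cases h0 : s < 0
    · exact Or.inl ⟨h.1, h0⟩
    · exact Or.inr ⟨not_lt.1 h0, h.2⟩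
  calc ∫⁻ s in Icc (-r) r, hs s ≤ ∫⁻ s in Ico (-r) 0 ∪ Icc 0 r, hs s := lintegral_mono_set h2
    _ ≤ (∫⁻ s in Ico (-r) 0, hs s) + ∫⁻ s in Icc 0 r, hs s := lintegral_union_le _ _ _
    _ = ENNReal.ofReal (4 * √r) := by
      rw [h1, ← setLIntegral_congr Ioc_ae_eq_Icc, lint_half hr,
        ← ENNReal.ofReal_add (by positivity) (by positivity)]
      congr 1; ring

theorem exists_centre {f : ℝ → ℝ} {r : ℝ} (hr : 0 < r)
    (hf : ∀ t ∈ Icc 0 r, ∃ d, 1 ≤ d ∧ HasDerivAt f d t) :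
    ∃ t₀ ∈ Icc 0 r, ∀ t ∈ Icc 0 r, |t - t₀| ≤ |f t| := by
  have hc : ContinuousOn f (Icc 0 r) := fun t ht => by
    obtain ⟨d, -, hd⟩ := hf t ht
    exact hd.continuousAt.continuousWithinAt
  have hm : MonotoneOn (fun t => f t - t) (Icc 0 r) := by
    refine monotoneOn_of_deriv_nonneg (convex_Icc 0 r) (hc.sub continuousOn_id) (fun t ht => ?_)
      fun t ht => ?_
    · obtain ⟨d, -, hd⟩ := hf t (interior_subset ht)
      exact (hd.sub (hasDerivAt_id t)).differentiableAt.differentiableWithinAt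
    · obtain ⟨d, h1, hd⟩ := hf t (interior_subset ht)
      rw [(hd.fun_sub (hasDerivAt_id' t)).deriv]; linarith
  have h0 : (0 : ℝ) ∈ Icc 0 r := left_mem_Icc.2 hr.le
  have h1 : r ∈ Icc 0 r := right_mem_Icc.2 hr.le
  by_cases ha : 0 ≤ f 0
  · refine ⟨0, h0, fun t ht => ?_⟩
    have := hm h0 ht ht.1
    simp only at this
    rw [abs_of_nonneg (by linarith [ht.1])]
    exact le_trans (by linarith) (le_abs_self _)
  by_cases hb : f r ≤ 0
  · refine ⟨r, h1, fun t ht => ?_⟩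
    have := hm ht h1 ht.2
    simp only at this
    rw [abs_of_nonpos (by linarith [ht.2])]
    exact le_trans (by linarith) (neg_le_abs _)
  obtain ⟨t₀, ht₀, hz⟩ := intermediate_value_Icc hr.le hc
    (show (0 : ℝ) ∈ Icc (f 0) (f r) from ⟨by linarith, by linarith⟩)
  refine ⟨t₀, ht₀, fun t ht => ?_⟩
  rcases le_total t t₀ with h | h
  · have := hm ht ht₀ h
    simp only at this
    rw [abs_of_nonpos (by linarith)]
    exact le_trans (by linarith) (neg_le_abs _)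
  · have := hm ht₀ ht h
    simp only at this
    rw [abs_of_nonneg (by linarith)]
    exact le_trans (by linarith) (le_abs_self _)

theorem lint_segment {f : ℝ → ℝ} {r : ℝ} (hr : 0 < r)
    (hf : ∀ t ∈ Icc 0 r, ∃ d, 1 ≤ d ∧ HasDerivAt f d t) :
    ∫⁻ t in Icc 0 r, hs (f t) ≤ ENNReal.ofReal (4 * √r) := by
  obtain ⟨t₀, ht₀, h⟩ := exists_centre hr hf
  refine le_trans ?_ (lint_sym hr)
  rw [← lintegral_indicator measurableSet_Icc, ← lintegral_indicator measurableSet_Icc,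
    ← lintegral_sub_right_eq_self (fun s => (Icc (-r) r).indicator hs s) t₀]
  refine lintegral_mono fun t => ?_
  by_cases ht : t ∈ Icc 0 r
  · rw [indicator_of_mem ht, indicator_of_mem (show t - t₀ ∈ Icc (-r) r from
      ⟨by linarith [ht.1, ht₀.2], by linarith [ht.2, ht₀.1]⟩)]
    exact hs_anti (h t ht)
  · rw [indicator_of_notMem ht]; exact zero_le

section general

variable {V : Type*} [NormedAddCommGroup V] [NormedSpace ℝ V] [FiniteDimensional ℝ V]
  [MeasurableSpace V] [BorelSpace V] (μ : Measure V) [μ.IsAddHaarMeasure] {ρ : V → ℝ}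

theorem ball_bound (hm : Measurable ρ) {y v : V} {r : ℝ} (hr : 0 < r)
    (h : ∀ z ∈ ball y ((1 + 2 * ‖v‖) * r), DifferentiableAt ℝ ρ z ∧ 1 ≤ fderiv ℝ ρ z v) :
    ∫⁻ x in ball y r, hs (ρ x) ∂μ ≤
      ENNReal.ofReal (4 * (1 + ‖v‖) ^ Module.finrank ℝ V) * μ (ball 0 1) *
        ENNReal.ofReal (r ^ Module.finrank ℝ V / √r) := by
  have hv := norm_nonneg v
  have h1 : ∀ t ∈ Icc 0 r, ∫⁻ x in ball y r, hs (ρ x) ∂μ ≤
      ∫⁻ x in ball y ((1 + ‖v‖) * r), hs (ρ (x + t • v)) ∂μ := fun t ht => by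
    rw [← lintegral_indicator measurableSet_ball, ← lintegral_indicator measurableSet_ball,
      ← lintegral_add_right_eq_self _ (t • v)]
    refine lintegral_mono fun x => ?_
    by_cases hx : x + t • v ∈ ball y r
    · rw [indicator_of_mem hx, indicator_of_mem]
      rw [mem_ball_iff_norm] at hx ⊢
      have e : x - y = (x + t • v - y) - t • v := by abel
      have h2 := norm_sub_le (x + t • v - y) (t • v)
      rw [norm_smul, Real.norm_of_nonneg ht.1] at h2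
      rw [e]
      nlinarith [mul_le_mul_of_nonneg_right ht.2 hv]
    · rw [indicator_of_notMem hx]; exact zero_le
  have h2 : ∀ x ∈ ball y ((1 + ‖v‖) * r),
      ∫⁻ t in Icc 0 r, hs (ρ (x + t • v)) ≤ ENNReal.ofReal (4 * √r) := fun x hx => by
    refine lint_segment hr fun t ht => ?_
    have hz : x + t • v ∈ ball y ((1 + 2 * ‖v‖) * r) := by
      rw [mem_ball_iff_norm] at hx ⊢
      have e : x + t • v - y = (x - y) + t • v := by abel
      have h2 := norm_add_le (x - y) (t • v)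
      rw [norm_smul, Real.norm_of_nonneg ht.1] at h2
      rw [e]
      nlinarith [mul_le_mul_of_nonneg_right ht.2 hv]
    refine ⟨_, (h _ hz).2, ?_⟩
    have hl : HasDerivAt (fun s : ℝ => x + s • v) v t := by
      simpa using ((hasDerivAt_id t).smul_const v).const_add x
    exact (h _ hz).1.hasFDerivAt.comp_hasDerivAt t hl
  have h3 : ENNReal.ofReal r * ∫⁻ x in ball y r, hs (ρ x) ∂μ ≤
      ENNReal.ofReal (4 * √r) * μ (ball y ((1 + ‖v‖) * r)) := by
    calc ENNReal.ofReal r * ∫⁻ x in ball y r, hs (ρ x) ∂μ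
        = ∫⁻ _ in Icc 0 r, ∫⁻ x in ball y r, hs (ρ x) ∂μ := by
          rw [setLIntegral_const, Real.volume_Icc, sub_zero, mul_comm]
      _ ≤ ∫⁻ t in Icc 0 r, ∫⁻ x in ball y ((1 + ‖v‖) * r), hs (ρ (x + t • v)) ∂μ :=
          setLIntegral_mono' measurableSet_Icc h1
      _ = ∫⁻ x in ball y ((1 + ‖v‖) * r), (∫⁻ t in Icc 0 r, hs (ρ (x + t • v))) ∂μ := by
          refine lintegral_lintegral_swap (Measurable.aemeasurable ?_)
          exact measurable_hs.comp (hm.comp (by fun_prop))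
      _ ≤ ∫⁻ _ in ball y ((1 + ‖v‖) * r), ENNReal.ofReal (4 * √r) ∂μ :=
          setLIntegral_mono' measurableSet_ball h2
      _ = _ := setLIntegral_const _ _
  have hr0 : ENNReal.ofReal r ≠ 0 := by simpa using hr
  refine (ENNReal.mul_le_mul_iff_right hr0 ENNReal.ofReal_ne_top).1 (h3.trans (le_of_eq ?_))
  rw [Measure.addHaar_ball_of_pos μ y (by positivity), mul_right_comm, ← mul_assoc, ← mul_assoc,
    ← mul_assoc, ← ENNReal.ofReal_mul (by positivity), ← ENNReal.ofReal_mul hr.le,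
    ← ENNReal.ofReal_mul (by positivity)]
  congr 2
  have hs0 : 0 < √r := Real.sqrt_pos.2 hr
  have hq : r = √r * √r := (Real.mul_self_sqrt hr.le).symm
  rw [mul_pow]
  field_simp
  rw [Real.sq_sqrt hr.le]

/-- The ball bound for small radii, uniformly for centres in `S`. -/
def Loc (ρ : V → ℝ) (S : Set V) : Prop := ∃ r₁ > 0, ∃ C : ℝ≥0∞, C ≠ ⊤ ∧ ∀ y ∈ S, ∀ r > 0, r ≤ r₁ →
  ∫⁻ x in ball y r, hs (ρ x) ∂μ ≤ C * ENNReal.ofReal (r ^ Module.finrank ℝ V / √r)

theorem loc_zero (hm : Measurable ρ) {p v : V} {R : ℝ} (hR : 0 < R)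
    (h : ∀ z ∈ closedBall p R, DifferentiableAt ℝ ρ z ∧ 1 ≤ fderiv ℝ ρ z v) :
    Loc μ ρ (ball p (R / 2)) := by
  have hv : 0 < 1 + 2 * ‖v‖ := by positivity
  refine ⟨R / 2 / (1 + 2 * ‖v‖), by positivity, _,
    ENNReal.mul_ne_top ENNReal.ofReal_ne_top measure_ball_lt_top.ne, fun y hy r hr hr1 =>
      ball_bound μ hm hr fun z hz => h z ?_⟩
  rw [le_div_iff₀ hv] at hr1
  rw [mem_ball] at hy hz
  rw [mem_closedBall]
  linarith [dist_triangle z y p]

theorem loc_ne {p : V} (hc : ContinuousAt ρ p) (hp : ρ p ≠ 0) : ∃ ε > 0, Loc μ ρ (ball p ε) := by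
  have ha : 0 < |ρ p| / 2 := by positivity
  obtain ⟨ε, hε, h⟩ := Metric.continuousAt_iff.1 hc _ ha
  have hfin : hs (|ρ p| / 2) ≠ ⊤ := by
    simp only [hs, ne_eq, ENNReal.inv_eq_top, ENNReal.ofReal_eq_zero, not_le]
    exact Real.sqrt_pos.2 (abs_pos.2 ha.ne')
  refine ⟨ε / 2, by positivity, min (ε / 2) 1, by positivity, hs (|ρ p| / 2) * μ (ball 0 1),
    ENNReal.mul_ne_top hfin measure_ball_lt_top.ne, fun y hy r hr hr1 => ?_⟩
  have h1 : ∀ x ∈ ball y r, hs (ρ x) ≤ hs (|ρ p| / 2) := fun x hx => by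
    rw [mem_ball] at hx hy
    have := h (show dist x p < ε by linarith [dist_triangle x y p, hr1.trans (min_le_left _ _)])
    rw [Real.dist_eq] at this
    refine hs_anti ?_
    rw [abs_of_pos ha]
    linarith [abs_sub_abs_le_abs_sub (ρ p) (ρ x), abs_sub_comm (ρ p) (ρ x)]
  refine (setLIntegral_mono' measurableSet_ball h1).trans ?_
  rw [setLIntegral_const, Measure.addHaar_ball_of_pos μ y hr, mul_assoc, mul_comm (μ _)]
  gcongr
  exact le_div_self (by positivity) (Real.sqrt_pos.2 hr)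
    (Real.sqrt_le_one.2 (hr1.trans (min_le_right _ _)))

omit [FiniteDimensional ℝ V] [BorelSpace V] [μ.IsAddHaarMeasure] in
theorem loc_compact {K : Set V} (hK : IsCompact K) (h : ∀ p ∈ K, ∃ ε > 0, Loc μ ρ (ball p ε)) :
    Loc μ ρ K := by
  refine hK.induction_on ⟨1, one_pos, 0, by simp, by simp⟩ ?_ ?_ fun p hp => ?_
  · rintro s t hst ⟨r₁, hr₁, C, hC, H⟩
    exact ⟨r₁, hr₁, C, hC, fun y hy => H y (hst hy)⟩
  · rintro s t ⟨r₁, hr₁, C, hC, H⟩ ⟨r₂, hr₂, D, hD, G⟩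
    refine ⟨min r₁ r₂, by positivity, C + D, ENNReal.add_ne_top.2 ⟨hC, hD⟩, ?_⟩
    rintro y (hy | hy) r hr hr1
    · exact (H y hy r hr (hr1.trans (min_le_left _ _))).trans (by gcongr; exact le_self_add)
    · exact (G y hy r hr (hr1.trans (min_le_right _ _))).trans (by gcongr; exact le_add_self)
  · obtain ⟨ε, hε, H⟩ := h p hp
    exact ⟨_, mem_nhdsWithin_of_mem_nhds (ball_mem_nhds p hε), H⟩

omit [FiniteDimensional ℝ V] [BorelSpace V] [μ.IsAddHaarMeasure] in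
theorem lint_lt_top {K : Set V} (hK : IsCompact K) (h : Loc μ ρ K) :
    ∫⁻ x in K, hs (ρ x) ∂μ < ⊤ := by
  obtain ⟨r₁, hr₁, C, hC, H⟩ := h
  refine hK.induction_on (p := fun s => ∫⁻ x in s, hs (ρ x) ∂μ < ⊤) (by simp)
    (fun s t hst ht => (lintegral_mono_set hst).trans_lt ht)
    (fun s t hs' ht => (lintegral_union_le _ _ _).trans_lt (ENNReal.add_lt_top.2 ⟨hs', ht⟩))
    fun p hp => ⟨_, mem_nhdsWithin_of_mem_nhds (ball_mem_nhds p hr₁),
      (H p hp r₁ hr₁ le_rfl).trans_lt (ENNReal.mul_lt_top hC.lt_top ENNReal.ofReal_lt_top)⟩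

omit [FiniteDimensional ℝ V] [BorelSpace V] [μ.IsAddHaarMeasure] in
theorem all_radii (hn : 1 ≤ Module.finrank ℝ V) {K : Set V} (hK : IsCompact K) (h : Loc μ ρ K) :
    ∃ C : ℝ≥0∞, C ≠ ⊤ ∧ ∀ y ∈ K, ∀ r > 0, ∫⁻ x in ball y r ∩ K, hs (ρ x) ∂μ ≤
      C * ENNReal.ofReal (r ^ Module.finrank ℝ V / √r) := by
  have hM := lint_lt_top μ hK h
  obtain ⟨r₁, hr₁, C, hC, H⟩ := h
  obtain ⟨m, hm⟩ := Nat.exists_eq_add_of_le' hn
  have he : ∀ r : ℝ, 0 < r → r ^ Module.finrank ℝ V / √r = r ^ m * √r := fun r hr => by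
    have hs0 : 0 < √r := Real.sqrt_pos.2 hr
    rw [hm, pow_succ, div_eq_iff hs0.ne', mul_assoc, Real.mul_self_sqrt hr.le]
  have ha : ENNReal.ofReal (r₁ ^ m * √r₁) ≠ 0 := by
    simp only [ne_eq, ENNReal.ofReal_eq_zero, not_le]; positivity
  refine ⟨C + (∫⁻ x in K, hs (ρ x) ∂μ) / ENNReal.ofReal (r₁ ^ m * √r₁),
    ENNReal.add_ne_top.2 ⟨hC, ENNReal.div_ne_top hM.ne ha⟩, fun y hy r hr => ?_⟩
  rcases le_total r r₁ with h1 | h1
  · exact ((lintegral_mono_set inter_subset_left).trans (H y hy r hr h1)).trans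
      (by gcongr; exact le_self_add)
  · refine (lintegral_mono_set inter_subset_right).trans ?_
    rw [he r hr]
    calc ∫⁻ x in K, hs (ρ x) ∂μ = (∫⁻ x in K, hs (ρ x) ∂μ) / ENNReal.ofReal (r₁ ^ m * √r₁) *
          ENNReal.ofReal (r₁ ^ m * √r₁) :=
          (ENNReal.div_mul_cancel ha ENNReal.ofReal_ne_top).symm
      _ ≤ _ := by gcongr; exact le_add_self

omit [NormedSpace ℝ V] [FiniteDimensional ℝ V] [μ.IsAddHaarMeasure] in
theorem dyadic (hm : Measurable ρ) {K : Set V} {C : ℝ≥0∞} {y : V} {n : ℕ}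
    (h : ∀ r > 0, ∫⁻ x in ball y r ∩ K, hs (ρ x) ∂μ ≤ C * ENNReal.ofReal (r ^ n / √r))
    {δ : ℝ} (hδ : 0 < δ) :
    ∫⁻ x in K, ENNReal.ofReal (((‖x - y‖ + δ) ^ n)⁻¹ * (√|ρ x|)⁻¹) ∂μ ≤
      4 ^ n * C * ENNReal.ofReal (√δ)⁻¹ := by
  have h1 : ∀ x, ENNReal.ofReal (((‖x - y‖ + δ) ^ n)⁻¹ * (√|ρ x|)⁻¹) ≤
      ∑' i : ℕ, (ball y (4 ^ (i + 1) * δ)).indicator
        (fun x => ENNReal.ofReal ((4 ^ i * δ) ^ n)⁻¹ * hs (ρ x)) x := fun x => by
    have hx := norm_nonneg (x - y)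
    obtain ⟨i, hi1, hi2⟩ := exists_nat_pow_near
      (show 1 ≤ (‖x - y‖ + δ) / δ by rw [le_div_iff₀ hδ]; linarith) (show (1 : ℝ) < 4 by norm_num)
    rw [le_div_iff₀ hδ] at hi1
    rw [div_lt_iff₀ hδ] at hi2
    refine le_trans ?_ (ENNReal.le_tsum i)
    rw [indicator_of_mem (by rw [mem_ball_iff_norm]; linarith),
      ENNReal.ofReal_mul (by positivity)]
    exact mul_le_mul' (by gcongr) ENNReal.ofReal_inv_le
  have h2 : ∀ i : ℕ, ∫⁻ x in K, (ball y (4 ^ (i + 1) * δ)).indicator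
      (fun x => ENNReal.ofReal ((4 ^ i * δ) ^ n)⁻¹ * hs (ρ x)) x ∂μ ≤
      4 ^ n * C * ENNReal.ofReal (√δ)⁻¹ * 2⁻¹ ^ (i + 1) := fun i => by
    rw [lintegral_indicator measurableSet_ball, Measure.restrict_restrict measurableSet_ball,
      lintegral_const_mul' _ _ ENNReal.ofReal_ne_top]
    refine (mul_le_mul' le_rfl (h _ (by positivity))).trans (le_of_eq ?_)
    have e1 : (4 : ℝ≥0∞) ^ n = ENNReal.ofReal (4 ^ n) := by
      rw [ENNReal.ofReal_pow (by norm_num)]; simp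
    have e2 : (2⁻¹ : ℝ≥0∞) ^ (i + 1) = ENNReal.ofReal (2⁻¹ ^ (i + 1)) := by
      rw [ENNReal.ofReal_pow (by norm_num), ENNReal.ofReal_inv_of_pos (by norm_num)]; simp
    have e3 : √(4 ^ (i + 1) * δ) = 2 ^ (i + 1) * √δ := by
      rw [Real.sqrt_mul (by positivity), show (4 : ℝ) ^ (i + 1) = (2 ^ (i + 1)) ^ 2 by
        rw [← pow_mul, mul_comm, pow_mul]; norm_num, Real.sqrt_sq (by positivity)]
    rw [e1, e2, e3, mul_left_comm, mul_comm _ C, mul_assoc, mul_assoc,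
      ← ENNReal.ofReal_mul (by positivity), ← ENNReal.ofReal_mul (by positivity),
      ← ENNReal.ofReal_mul (by positivity)]
    congr 2
    have hs0 : 0 < √δ := Real.sqrt_pos.2 hδ
    rw [show (4 : ℝ) ^ (i + 1) * δ = 4 * (4 ^ i * δ) by ring, mul_pow 4, inv_pow]
    field_simp
  refine (lintegral_mono h1).trans ?_
  refine (lintegral_tsum fun i => (((measurable_hs.comp hm).const_mul _).indicator
    measurableSet_ball).aemeasurable).trans_le ((ENNReal.tsum_le_tsum h2).trans (le_of_eq ?_))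
  rw [ENNReal.tsum_mul_left, ENNReal.tsum_geometric_add_one, ENNReal.one_sub_inv_two, inv_inv,
    ENNReal.inv_mul_cancel (by norm_num) (by norm_num), mul_one]

end general

theorem c2 (_hp : StmtPF) (hc : StmtC1) : StmtC2 := by
  intro N ρ hρ
  obtain ⟨-, -, -, -, hm, -, -, -, hz, -⟩ := hc N ρ hρ
  have hd : ∀ z : E N, z ≠ 0 → DifferentiableAt ℝ ρ z := fun z h =>
    (hρ.smooth.contDiffAt (isOpen_E0.mem_nhds h)).differentiableAt (by simp)
  have hl : ∀ p : E N, p ≠ 0 → ∃ ε > 0, Loc volume ρ (ball p ε) := fun p hp => by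
    by_cases h0 : ρ p = 0
    · obtain ⟨v, r, hr, h4, H⟩ := hz p hp h0
      refine ⟨r / 2, by positivity, loc_zero volume hm hr fun z hz => ⟨hd z ?_, H z hz⟩⟩
      rintro rfl
      rw [mem_closedBall, dist_zero_left] at hz
      linarith
    · exact loc_ne volume (hd p hp).continuousAt h0
  obtain ⟨z₀, hz₀, -⟩ := hρ.proper
  have : Nontrivial (E N) := ⟨z₀, 0, hz₀⟩
  have hn : 1 ≤ Module.finrank ℝ (E N) := Module.finrank_pos
  refine ⟨?_, fun K B hK h0 => ?_⟩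
  · have h1 : volume {z : E N | z ≠ 0 ∧ ρ z = 0} = 0 := by
      refine measure_null_of_locally_null _ fun p hp => ?_
      obtain ⟨ε, hε, r₁, hr₁, C, hC, H⟩ := hl p hp.1
      refine ⟨_, inter_mem_nhdsWithin _ (ball_mem_nhds p hr₁), ?_⟩
      have h2 := ae_lt_top (measurable_hs.comp hm) ((H p (mem_ball_self hε) r₁ hr₁ le_rfl).trans_lt
        (ENNReal.mul_lt_top hC.lt_top ENNReal.ofReal_lt_top)).ne
      rw [ae_restrict_iff' measurableSet_ball] at h2
      refine measure_mono_null (fun z hz => ?_) h2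
      intro h3
      simpa [hs, hz.1.2] using h3 hz.2
    have h2 : ∀ᵐ z : E N, z ≠ 0 := by simp [ae_iff]
    filter_upwards [h2, measure_eq_zero_iff_ae_notMem.1 h1] with z h3 h4 h5
    exact h4 ⟨h3, h5⟩
  · obtain ⟨C, hC, H⟩ := all_radii volume hn hK
      (loc_compact volume hK fun p hp => hl p fun h => h0 (h ▸ hp))
    rw [finrank_E] at H
    refine ⟨(4 ^ (2 * N) * C).toNNReal, fun y hy δ hδ _ => ?_⟩
    rw [ENNReal.coe_toNNReal (ENNReal.mul_ne_top (by simp) hC)]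
    exact dyadic volume hm (H y hy) hδ

end Pool.Agent.MP_fcd29e_an.H26
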