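import Pool.Agent.MP_fcd29e_an.H81.Spec2

/-!
Local flows of the fields `Xf`.
-/

set_option autoImplicit false

open Pool.Agent.MP_fcd29e_an.H81 MeasureTheory Complex Set Filter Topology Metric
open scoped ContDiff ComplexConjugate ENNReal NNReal

namespace Pool.Agent.MP_fcd29e_an.H26

open ODE in
theorem picard_ball {V : Type*} [NormedAddCommGroup V] [NormedSpace ℝ V] [CompleteSpace V]
    {f : ℝ → V → V} {tmin tmax : ℝ} {t₀ : Icc tmin tmax} {x₀ x : V} {a r L K : ℝ≥0}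
    (hf : IsPicardLindelof f t₀ x₀ a r L K) (hx : x ∈ closedBall x₀ r) :
    ∃ α : ℝ → V, α t₀ = x ∧ (∀ t, α t ∈ closedBall x₀ a) ∧
      ∀ t ∈ Icc tmin tmax, HasDerivWithinAt α (f t (α t)) (Icc tmin tmax) t := by
  obtain ⟨α, hα⟩ := FunSpace.exists_isFixedPt_next hf hx
  refine ⟨α.compProj, by rw [FunSpace.compProj_val, ← hα, FunSpace.next_apply₀],
    fun _ => α.compProj_mem_closedBall hf.mul_max_le, fun t ht ↦ ?_⟩
  apply hasDerivWithinAt_picard_Icc t₀.2 hf.continuousOn_uncurry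
    α.continuous_compProj.continuousOn (fun _ ht' ↦ α.compProj_mem_closedBall hf.mul_max_le)
    x ht |>.congr_of_mem _ ht
  intro t' ht'
  nth_rw 1 [← hα]
  rw [FunSpace.compProj_of_mem ht', FunSpace.next_apply]

variable {N : ℕ} {ρ : E N → ℝ}

theorem contDiffAt_av (hρ : Dom ρ) {q : E N × E N} (hq : q.1 ≠ 0) :
    ContDiffAt ℝ ∞ (fun q : E N × E N => av ρ q.1 q.2) q :=
  ContDiffAt.sum fun j _ => ((contDiffAt_dz j (contDiffAt_cx
    (hρ.smooth.contDiffAt (isOpen_E0.mem_nhds hq)))).comp q contDiffAt_fst).mul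
      ((contDiff_coord j).contDiffAt.comp q contDiffAt_snd)

theorem contDiffAt_av' (hρ : Dom ρ) (u : E N) {z : E N} (hz : z ≠ 0) :
    ContDiffAt ℝ ∞ (fun z => av ρ z u) z :=
  ContDiffAt.comp (f := fun z => (z, u)) z (contDiffAt_av hρ (q := (z, u)) hz)
    (contDiffAt_id.prodMk contDiffAt_const)

theorem contDiffAt_Xf (hρ : Dom ρ) (u : E N) {q : E N × E N} (hq : q.1 ≠ 0)
    (h : av ρ q.1 u ≠ 0) : ContDiffAt ℝ ∞ (fun q : E N × E N => Xf ρ u q.2 q.1) q := by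
  have h1 : ContDiffAt ℝ ∞ (fun q : E N × E N => av ρ q.1 q.2 / av ρ q.1 u) q := by
    simp only [div_eq_mul_inv]
    exact (contDiffAt_av hρ hq).mul (((contDiffAt_av' hρ u hq).comp q contDiffAt_fst).inv h)
  exact contDiffAt_snd.sub (h1.smul contDiffAt_const)

theorem av_Xf (u w z : E N) (h : av ρ z u ≠ 0) : av ρ z (Xf ρ u w z) = 0 := by
  have : av ρ z (Xf ρ u w z) = av ρ z w - av ρ z w / av ρ z u * av ρ z u := by
    simp only [Xf]
    generalize av ρ z w / av ρ z u = c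
    simp only [av, PiLp.sub_apply, PiLp.smul_apply, smul_eq_mul, mul_sub, Finset.sum_sub_distrib,
      Finset.mul_sum, mul_left_comm]
  rw [this, div_mul_cancel₀ _ h, sub_self]

theorem flw (L : Lv0) : StmtFLW := by
  intro N ρ hρ p hp ε hε
  obtain ⟨-, -, -, hd⟩ := L.pf N
  obtain ⟨ho, -, h1, h2, -⟩ := hd ρ hρ
  have hp0 : 0 < ‖p‖ := norm_pos_iff.2 hp.1
  have ha : av ρ p (nv ρ p) ≠ 0 := by
    rw [(h1 p hp.1).2.2.2.2.1]
    exact ofReal_ne_zero.2 (h2 p hp).1.ne'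
  obtain ⟨r₀, hr₀, hU⟩ := nhds_basis_closedBall.mem_iff.1 (inter_mem (ho.mem_nhds hp)
    ((contDiffAt_av' hρ (nv ρ p) hp.1).continuousAt.eventually_ne ha))
  obtain ⟨r, hr, hr1, hr2, hr3⟩ : ∃ r > 0, r ≤ ε ∧ 4 * r ≤ ‖p‖ ∧ 2 * r ≤ r₀ :=
    ⟨min ε (min (‖p‖ / 4) (r₀ / 2)), by positivity, min_le_left _ _,
      by linarith [(min_le_right ε _).trans (min_le_left (‖p‖ / 4) (r₀ / 2))],
      by linarith [(min_le_right ε _).trans (min_le_right (‖p‖ / 4) (r₀ / 2))]⟩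
  replace hU := (closedBall_subset_closedBall hr3).trans hU
  have hs : ∀ z ∈ closedBall p (2 * r), ∀ w,
      ContDiffAt ℝ ∞ (fun q : E N × E N => Xf ρ (nv ρ p) q.2 q.1) (z, w) := fun z hz w =>
    contDiffAt_Xf hρ _ (hU hz).1.1 (hU hz).2
  have hc : IsCompact (closedBall p (2 * r) ×ˢ closedBall (0 : E N) 1) :=
    (isCompact_closedBall _ _).prod (isCompact_closedBall _ _)
  have hs' : ContDiffOn ℝ ∞ (fun q : E N × E N => Xf ρ (nv ρ p) q.2 q.1)
      (closedBall p (2 * r) ×ˢ closedBall (0 : E N) 1) := fun q hq =>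
    (hs q.1 hq.1 q.2).contDiffWithinAt
  obtain ⟨K, hK⟩ := hs'.exists_lipschitzOnWith (by simp)
    ((convex_closedBall _ _).prod (convex_closedBall _ _)) hc
  obtain ⟨M, hM⟩ := hc.exists_bound_of_continuousOn hs'.continuousOn
  obtain ⟨B, hKB, hMB⟩ : ∃ B : ℝ≥0, K ≤ B ∧ M ≤ B :=
    ⟨max K M.toNNReal, le_max_left _ _, (Real.le_coe_toNNReal M).trans
      (NNReal.coe_le_coe.2 (le_max_right _ _))⟩
  have hB : (0 : ℝ) < B + 1 := by positivity
  refine ⟨r, hr, r / (4 * (B + 1)), by positivity, B, hr1, hr2, fun z hz => (hU hz).1,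
    fun z hz => (hU hz).2, fun w hw => ?_⟩
  have hw' : w ∈ closedBall (0 : E N) 1 := mem_closedBall_zero_iff.2 hw
  have hl : LipschitzOnWith B (Xf ρ (nv ρ p) w) (closedBall p (2 * r)) := fun x hx y hy => by
    have := hK.weaken hKB (show (x, w) ∈ _ from ⟨hx, hw'⟩) (show (y, w) ∈ _ from ⟨hy, hw'⟩)
    simpa [Prod.edist_eq] using this
  have hb : ∀ z ∈ closedBall p (2 * r), ‖Xf ρ (nv ρ p) w z‖ ≤ B := fun z hz =>
    (hM (z, w) ⟨hz, hw'⟩).trans hMB
  refine ⟨hl, fun z hz => ⟨hb z hz, av_Xf _ _ _ (hU hz).2,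
    ContDiffAt.comp (f := fun z => (z, w)) z (hs z hz w)
      (contDiffAt_id.prodMk contDiffAt_const)⟩, fun x hx => ?_⟩
  have hτ : 0 < r / (4 * (B + 1)) := by positivity
  have hsub : closedBall p r ⊆ closedBall p (2 * r) := closedBall_subset_closedBall (by linarith)
  have hpl : IsPicardLindelof (fun _ => Xf ρ (nv ρ p) w) (tmin := -(2 * (r / (4 * (B + 1)))))
      (tmax := 2 * (r / (4 * (B + 1)))) ⟨0, by linarith, by linarith⟩ p ⟨r, hr.le⟩
      ⟨r / 2, by positivity⟩ B B := by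
    refine IsPicardLindelof.of_time_independent (fun z hz => hb z (hsub hz)) (hl.mono hsub) ?_
    show (B : ℝ) * max (2 * (r / (4 * (B + 1))) - 0) (0 - -(2 * (r / (4 * (B + 1))))) ≤ r - r / 2
    rw [sub_zero, zero_sub, neg_neg, max_self]
    have e : (B + 1 : ℝ) * (2 * (r / (4 * (B + 1)))) = r / 2 := by field_simp; norm_num
    nlinarith
  obtain ⟨γ, g0, g1, g2⟩ := picard_ball hpl hx
  exact ⟨γ, g0, fun t ht => ⟨(g2 t ⟨by linarith [ht.1], by linarith [ht.2]⟩).hasDerivAt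
    (Icc_mem_nhds (by linarith [ht.1]) (by linarith [ht.2])), g1 t⟩⟩

end Pool.Agent.MP_fcd29e_an.H26
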