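import Pool.Agent.MP_fcd29e_an.H81.Spec2

/-!
Koppelman's formula and bounds for the potential.
-/

set_option autoImplicit false

open Pool.Agent.MP_fcd29e_an.H81 MeasureTheory Complex Set Filter Topology Metric
open scoped ContDiff ComplexConjugate ENNReal NNReal

namespace Pool.Agent.MP_fcd29e_an.H26

variable {N : ℕ} {ρ : E N → ℝ}

theorem tst_dzb {ψ : E N → ℂ} (h : Tst ψ) (j : Fin N) : Tst (dzb j ψ) := by
  refine ⟨contDiff_iff_contDiffAt.2 fun _ => contDiffAt_dzb j h.1.contDiffAt,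
    h.2.mono' fun z hz => ?_⟩
  by_contra h1
  exact hz (by rw [dzb_congr (notMem_tsupport_iff_eventuallyEq.1 h1) j]; exact dzb_const j 0 z)

theorem tst_sub {f g : E N → ℂ} (hf : Tst f) (hg : Tst g) : Tst fun z => f z - g z :=
  ⟨hf.1.sub hg.1, hf.2.sub hg.2⟩

theorem tst_scale {f : E N → ℂ} (hf : Tst f) (a : ℂ) {r : ℝ} (hr : r ≠ 0) :
    Tst fun z => a * f (r • z) :=
  ⟨contDiff_const.mul (hf.1.comp (contDiff_id.const_smul r)), (hf.2.comp_smul hr).mul_left⟩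

theorem dk_sum {ι : Type} (s : Finset ι) {g : ι → E N → ℂ} (h : ∀ i, Dk (g i)) :
    Dk fun z => ∑ i ∈ s, g i z := by
  choose C hC using fun i => (h i).2
  refine ⟨ContDiff.sum fun i _ => (h i).1, ∑ i ∈ s, C i, fun z => ?_⟩
  rw [fderiv_fun_sum fun i _ => ContDiffAt.da (h i).1.contDiffAt, Finset.sum_div]
  exact ⟨norm_sum_le_of_le _ fun i _ => (hC i z).1, norm_sum_le_of_le _ fun i _ => (hC i z).2⟩

theorem dk_Ec (hb : StmtBM2) (hN : 2 ≤ N) {ψ : E N → ℂ} (h : Tst ψ) (j : Fin N) :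
    Dk (Ec j ψ) := by
  obtain ⟨h1, -, -, -, C, hC⟩ := ((hb N (by omega)).1 ψ h).2 j
  refine ⟨h1, C, fun z => ?_⟩
  have h2 : 0 < 1 + ‖z‖ := by positivity
  have h0 : 0 ≤ C := by
    have := (norm_nonneg _).trans (hC z).1
    by_contra h3
    exact absurd this (not_le.2 (div_neg_of_neg_of_pos (not_le.1 h3) (by positivity)))
  have h3 : C / (1 + ‖z‖) ^ (2 * N - 1) ≤ C / (1 + ‖z‖) ^ 3 :=
    div_le_div_of_nonneg_left h0 (by positivity)
      (pow_le_pow_right₀ (by linarith [norm_nonneg z]) (by omega))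
  exact ⟨(hC z).1.trans h3, (hC z).2.trans h3⟩

theorem Ec_scale (L : Lv0) (hN : 1 ≤ N) (j : Fin N) (F : E N → ℂ) {r : ℝ} (hr : 0 < r) (x : E N) :
    Ec j (fun z => ((r ^ 2 : ℝ) : ℂ) * F (r • z)) x = r * Ec j F (r • x) := by
  have hc : (r : ℂ) ≠ 0 := ofReal_ne_zero.2 hr.ne'
  have h1 := ((L.t0.1 N r hc).1) fun y => Ek j (r • x - y) * F y
  have h2 : ∀ y, Ek j (r • x - r • y) = r / (r ^ (2 * N) : ℝ) * Ek j (x - y) := fun y => by
    have := (((L.bm1 N hN).2.1 j).2.2.2.1 (x - y)).2.2 r hc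
    rw [smul_sub, conj_ofReal, norm_real, Real.norm_of_nonneg hr.le] at this
    exact this
  simp only [h2, norm_real, Real.norm_of_nonneg hr.le, coe_smul, mul_assoc,
    integral_const_mul] at h1
  have h3 : ((r ^ (2 * N) : ℝ) : ℂ) ≠ 0 := ofReal_ne_zero.2 (by positivity)
  simp only [Ec, mul_left_comm _ ((r ^ 2 : ℝ) : ℂ), integral_const_mul]
  generalize ((r ^ (2 * N) : ℝ) : ℂ) = q at h1 h3
  field_simp at h1
  rw [← h1]
  push_cast
  ring

theorem dz_scale {g : E N → ℂ} (hg : Differentiable ℝ g) (r : ℝ) (l : Fin N) (z : E N) :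
    dz l (fun x => (r : ℂ) * g (r • x)) z = (r : ℂ) ^ 2 * dz l g (r • z) := by
  rw [dz_const_mul (f := fun x => g (r • x)) l _
    (hg.fun_comp (differentiable_id.const_smul r) z)]
  simp only [dz, fderiv_comp_smul, smul_apply, real_smul]
  ring

theorem Sf_scale (L : Lv0) (hρ : Dom ρ) (μ : Measure (E N)) {γ : Fin N → E N → ℂ}
    (hγ : ∀ k, Differentiable ℝ (γ k)) {r : ℝ} (hr : 0 < r) :
    Sf ρ μ (fun k x => r * γ k (r • x)) = Sf ρ μ γ := by
  have hc : (r : ℂ) ≠ 0 := ofReal_ne_zero.2 hr.ne'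
  obtain ⟨-, -, h1, -⟩ := (L.pf N).2.2.2 ρ hρ
  have h2 : ∀ z, sf ρ (fun k x => r * γ k (r • x)) z = (r : ℂ) ^ 2 * sf ρ γ (r • z) := fun z => by
    have h3 : ∀ l k, PP ρ (r • z) l k = PP ρ z l k := fun l k => by
      by_cases hz : z = 0
      · rw [hz, smul_zero]
      · exact ((h1 z hz).2.2.2.1 r hc).2.2 l k
    have h4 : ∑ k, conj ((r • z) k) * γ k (r • z) = ∑ k, conj (z k) * (r * γ k (r • z)) :=
      Finset.sum_congr rfl fun k _ => by simp [mul_assoc, mul_left_comm]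
    simp only [sf, dz_scale (hγ _), h3, h4, mul_left_comm _ ((r : ℂ) ^ 2), ← Finset.mul_sum,
      norm_smul, Real.norm_of_nonneg hr.le, mul_pow]
    push_cast
    by_cases hz : (‖z‖ : ℂ) = 0
    · simp [hz]
    · field_simp
  unfold Sf
  refine integral_congr_ae (Eventually.of_forall fun z => ?_)
  have h5 := (L.t0.2.1 r hc).1 fun c => sf ρ γ (c • z)
  simp only [mul_smul, coe_smul, norm_real, Real.norm_of_nonneg hr.le] at h5
  simp only [h2, integral_const_mul, h5]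
  push_cast
  field_simp

theorem Ec_bound (hb : StmtBM1) (hN : 2 ≤ N) (j : Fin N) : ∃ A : ℝ, 0 ≤ A ∧
    ∀ (ψ : E N → ℂ) (b : ℝ), (∀ z, ‖ψ z‖ ≤ b ∧ (1 < ‖z‖ → ψ z = 0)) → ∀ x,
      ‖Ec j ψ x‖ ≤ b * A / (1 + ‖x‖) ^ 3 := by
  obtain ⟨hc, h1, -⟩ := hb N (by omega)
  obtain ⟨-, h2, -, h3, -⟩ := h1 j
  have h4 : Integrable ((closedBall (0 : E N) 3).indicator fun y => ‖Ek j y‖) :=
    (integrable_indicator_iff measurableSet_closedBall).2
      (h2.integrableOn_isCompact (isCompact_closedBall _ _)).norm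
  obtain ⟨A, hA, hA0⟩ : ∃ A, ∫ y, (closedBall (0 : E N) 3).indicator (fun y => ‖Ek j y‖) y = A ∧
      0 ≤ A := ⟨_, rfl, integral_nonneg fun y => indicator_nonneg (fun _ _ => norm_nonneg _) y⟩
  obtain ⟨V, hV, hV0⟩ : ∃ V, (volume : Measure (E N)).real (closedBall 0 1) = V ∧ 0 ≤ V :=
    ⟨_, rfl, measureReal_nonneg⟩
  refine ⟨27 * A + 27 * cN N * V, by positivity, fun ψ b hψ x => ?_⟩
  have hb0 : 0 ≤ b := (norm_nonneg _).trans (hψ 0).1
  have hx := norm_nonneg x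
  have hxy : ∀ y, ‖x‖ - ‖y‖ ≤ ‖x - y‖ ∧ ‖x - y‖ ≤ ‖x‖ + ‖y‖ := fun y =>
    ⟨norm_sub_norm_le x y, norm_sub_le x y⟩
  rw [le_div_iff₀ (by positivity)]
  rcases le_total ‖x‖ 2 with h | h
  · have h5 : ‖Ec j ψ x‖ ≤
        ∫ y, (closedBall (0 : E N) 3).indicator (fun y => ‖Ek j y‖) (x - y) * b := by
      refine norm_integral_le_of_norm_le ((h4.comp_sub_left x).mul_const b)
        (Eventually.of_forall fun y => ?_)
      by_cases hy : 1 < ‖y‖
      · rw [(hψ y).2 hy, mul_zero, norm_zero]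
        exact mul_nonneg (indicator_nonneg (fun _ _ => norm_nonneg _) _) hb0
      · rw [indicator_of_mem (mem_closedBall_zero_iff.2 (by linarith [(hxy y).2])), norm_mul]
        exact mul_le_mul_of_nonneg_left (hψ y).1 (norm_nonneg _)
    rw [integral_mul_const, integral_sub_left_eq_self
      ((closedBall (0 : E N) 3).indicator fun y => ‖Ek j y‖), hA] at h5
    have h6 : (1 + ‖x‖) ^ 3 ≤ 3 ^ 3 := pow_le_pow_left₀ (by positivity) (by linarith) 3
    calc ‖Ec j ψ x‖ * (1 + ‖x‖) ^ 3 ≤ A * b * 3 ^ 3 := by gcongr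
      _ ≤ _ := by nlinarith [mul_nonneg hb0 (mul_nonneg hc.le hV0)]
  · have h5 : ‖Ec j ψ x‖ ≤
        ∫ y, (closedBall (0 : E N) 1).indicator (fun _ => cN N / ((1 + ‖x‖) / 3) ^ 3 * b) y := by
      refine norm_integral_le_of_norm_le ((integrable_indicator_iff measurableSet_closedBall).2
        (integrableOn_const measure_closedBall_lt_top.ne)) (Eventually.of_forall fun y => ?_)
      by_cases hy : 1 < ‖y‖
      · rw [(hψ y).2 hy, mul_zero, norm_zero]
        exact indicator_nonneg (fun _ _ => by positivity) _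
      · rw [indicator_of_mem (mem_closedBall_zero_iff.2 (not_lt.1 hy)), norm_mul]
        refine mul_le_mul ((h3 _).2.1.trans (div_le_div_of_nonneg_left hc.le (by positivity) ?_))
          (hψ y).1 (norm_nonneg _) (by positivity)
        exact (pow_le_pow_left₀ (by positivity) (by linarith [(hxy y).1]) 3).trans
          (pow_le_pow_right₀ (by linarith [(hxy y).1]) (by omega))
    rw [integral_indicator_const _ measurableSet_closedBall, hV, smul_eq_mul] at h5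
    calc ‖Ec j ψ x‖ * (1 + ‖x‖) ^ 3 ≤ V * (cN N / ((1 + ‖x‖) / 3) ^ 3 * b) * (1 + ‖x‖) ^ 3 := by
          gcongr
      _ = b * (27 * cN N * V) := by field_simp; ring
      _ ≤ _ := by nlinarith [mul_nonneg hb0 hA0]

theorem exists_weight : ∃ W : ℂ → ℝ, Integrable W ∧ ∀ c, 1 / (1 + ‖c‖) ^ 3 ≤ W c ∧
    ‖c‖⁻¹ / (1 + ‖c‖) ^ 3 ≤ W c := by
  have h1 : IntegrableOn (fun c : ℂ => ‖c‖⁻¹) (ball 0 1) :=
    integrableOn_ball_of_norm_le_rpow (C := 1) (α := 1) (by simp) (by simp)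
      (Eventually.of_forall fun c => by simp [Real.rpow_neg_one])
      (Measurable.aestronglyMeasurable (by fun_prop))
  have h2 : Integrable fun c : ℂ => (1 + ‖c‖) ^ (-(3 : ℝ)) :=
    integrable_one_add_norm (by simp; norm_num)
  refine ⟨fun c => (ball (0 : ℂ) 1).indicator (fun c => ‖c‖⁻¹) c + (1 + ‖c‖) ^ (-(3 : ℝ)),
    ((integrable_indicator_iff measurableSet_ball).2 h1).add h2, fun c => ?_⟩
  have h0 := norm_nonneg c
  have h3 : (1 + ‖c‖) ^ (-(3 : ℝ)) = 1 / (1 + ‖c‖) ^ 3 := by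
    rw [Real.rpow_neg (by positivity), one_div]; norm_cast
  have h4 : 0 ≤ (ball (0 : ℂ) 1).indicator (fun c => ‖c‖⁻¹) c :=
    indicator_nonneg (fun _ _ => by positivity) _
  simp only [h3]
  refine ⟨by linarith, ?_⟩
  by_cases hc : c ∈ ball (0 : ℂ) 1
  · rw [indicator_of_mem hc]
    exact (div_le_self (by positivity) (one_le_pow₀ (by linarith))).trans
      (le_add_of_nonneg_right (by positivity))
  · rw [indicator_of_notMem hc, zero_add]
    exact div_le_div_of_nonneg_right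
      (inv_le_one_of_one_le₀ (not_lt.1 fun h => hc (mem_ball_zero_iff.2 h))) (by positivity)

theorem norm_dz_le (f : E N → ℂ) (l : Fin N) (z : E N) : ‖dz l f z‖ ≤ ‖fderiv ℝ f z‖ := by
  have h1 := (fderiv ℝ f z).le_opNorm (ee l)
  have h2 := (fderiv ℝ f z).le_opNorm (I • ee l)
  have h3 : ‖ee l‖ = 1 := by simp [ee]
  have h4 := norm_sub_le (fderiv ℝ f z (ee l)) (I * fderiv ℝ f z (I • ee l))
  rw [norm_mul, norm_I] at h4
  rw [norm_smul, norm_I, h3] at h2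
  rw [h3] at h1
  rw [dz, norm_div, Complex.norm_ofNat]
  linarith

theorem Sf_bound (L : Lv0) (hρ : Dom ρ) {K : Set (E N)} (hK : KS ρ K) {μ : Measure (E N)}
    (hμ : Mu ρ K μ) : ∃ C : ℝ, 0 ≤ C ∧ ∀ (γ : Fin N → E N → ℂ) (a : ℝ), 0 ≤ a →
      (∀ k x, ‖γ k x‖ ≤ a / (1 + ‖x‖) ^ 3 ∧ ∀ l, ‖dz l (γ k) x‖ ≤ a / (1 + ‖x‖) ^ 3) →
        ‖Sf ρ μ γ‖ ≤ C * a := by
  obtain ⟨W, hW, hW'⟩ := exists_weight
  obtain ⟨-, -, -, h1, -, -, h2⟩ := (L.pf N).2.2.2 ρ hρ
  have := hμ.prob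
  have hW0 : ∀ c, 0 ≤ W c := fun c => le_trans (by positivity) (hW' c).1
  have hI : 0 ≤ ∫ c, W c := integral_nonneg hW0
  refine ⟨(N * N + ‖(N : ℂ) - 2‖ * N) * ∫ c, W c, by positivity, fun γ a ha h => ?_⟩
  refine (norm_integral_le_of_norm_le_const (C := (N * N + ‖(N : ℂ) - 2‖ * N) * (∫ c, W c) * a)
    ?_).trans (by simp)
  filter_upwards [hμ.supp] with z ⟨hz, hz1⟩
  rw [mul_right_comm, ← integral_const_mul]
  refine norm_integral_le_of_norm_le (hW.const_mul _) ?_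
  have h0 : ∀ᵐ c : ℂ, c ≠ 0 := by simp [ae_iff]
  filter_upwards [h0] with c hc
  have hcz := hK.cone.2 c hc z hz
  have hn : ‖c • z‖ = ‖c‖ := by rw [norm_smul, hz1, mul_one]
  have hc0 : 0 < ‖c‖ := norm_pos_iff.2 hc
  have hR := (h2 _ (fun h => hK.cone.1 (h ▸ hcz)) (hK.bd _ hcz)).1
  have e1 : ‖∑ l, ∑ k, PP ρ (c • z) l k * dz l (γ k) (c • z)‖ ≤ N * (N * (a * W c)) := by
    refine (norm_sum_le_of_le _ (n := fun _ => N * (a * W c)) fun l _ =>
      (norm_sum_le_of_le _ (n := fun _ => a * W c) fun k _ => ?_).trans (by simp)).trans (by simp)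
    rw [norm_mul]
    refine (mul_le_of_le_one_left (norm_nonneg _) ((h1 _ hR).2.2.2.2.2.1 l k).2.1).trans
      (((h k _).2 l).trans ?_)
    rw [hn, div_eq_mul_one_div]
    exact mul_le_mul_of_nonneg_left (hW' c).1 ha
  have e2 : ‖∑ k, conj ((c • z) k) * γ k (c • z)‖ ≤ N * (‖c‖ ^ 2 * (a * W c)) := by
    refine (norm_sum_le_of_le _ (n := fun _ => ‖c‖ ^ 2 * (a * W c)) fun k _ => ?_).trans (by simp)
    rw [norm_mul, norm_conj]
    calc ‖(c • z) k‖ * ‖γ k (c • z)‖ ≤ ‖c‖ * (a / (1 + ‖c‖) ^ 3) := by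
          rw [← hn]
          exact mul_le_mul (PiLp.norm_apply_le _ k) (h k _).1 (norm_nonneg _) (norm_nonneg _)
      _ = ‖c‖ ^ 2 * (a * (‖c‖⁻¹ / (1 + ‖c‖) ^ 3)) := by field_simp
      _ ≤ _ := by gcongr; exact (hW' c).2
  refine (norm_sub_le _ _).trans ?_
  rw [norm_div, norm_mul, hn, norm_real, Real.norm_of_nonneg (by positivity)]
  have e3 : ‖(N : ℂ) - 2‖ * ‖∑ k, conj ((c • z) k) * γ k (c • z)‖ / ‖c‖ ^ 2 ≤
      ‖(N : ℂ) - 2‖ * (N * (a * W c)) := by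
    rw [div_le_iff₀ (by positivity)]
    calc _ ≤ ‖(N : ℂ) - 2‖ * (N * (‖c‖ ^ 2 * (a * W c))) := by gcongr
      _ = _ := by ring
  calc _ ≤ N * (N * (a * W c)) + ‖(N : ℂ) - 2‖ * (N * (a * W c)) := add_le_add e1 e3
    _ = _ := by ring

theorem s2 (L : Lv0) (h : StmtS1) : StmtS2 := by
  intro N ρ K μ hN hρ hK hμ
  obtain ⟨s1, s2, -⟩ := h N ρ K μ hρ hK hμ
  have hb := (L.bm2 N (by omega)).1
  have hD : ∀ F : Fin N → Fin N → E N → ℂ, (∀ j k, Tst (F j k)) →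
      ∀ k, Dk fun x => ∑ j, Ec j (F j k) x := fun F hF k =>
    dk_sum _ fun j => dk_Ec L.bm2 hN (hF j k) j
  have hadd : ∀ f g : E N → ℂ, Tst f → Tst g → ∀ j x,
      Ec j (fun z => f z + g z) x = Ec j f x + Ec j g x ∧
        Ec j (fun z => f z - g z) x = Ec j f x - Ec j g x := fun f g hf hg j x => by
    have h1 := ((hb f hf).2 j).2.1 x
    have h2 := ((hb g hg).2 j).2.1 x
    simp only [Ec, mul_add, mul_sub]
    exact ⟨integral_add h1 h2, integral_sub h1 h2⟩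
  have hsc : ∀ F : Fin N → Fin N → E N → ℂ, (∀ j k, Tst (F j k)) → ∀ r : ℝ, 0 < r →
      Rf ρ μ (fun j k z => ((r ^ 2 : ℝ) : ℂ) * F j k (r • z)) = Rf ρ μ F := fun F hF r hr => by
    simp only [Rf, Ec_scale L (by omega : 1 ≤ N) _ _ hr, ← Finset.mul_sum]
    exact Sf_scale L hρ μ (γ := fun k x => ∑ j, Ec j (F j k) x)
      (fun k => (hD F hF k).1.differentiable (by simp)) hr
  refine ⟨fun γ hγ => ?_, fun F F' hF hF' => ?_, hsc, ?_⟩
  · have h1 : ∀ j k, Tst (d1 γ j k) := fun j k => tst_sub (tst_dzb (hγ k) j) (tst_dzb (hγ j) k)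
    have h2 : ∀ k, dzb k (fun x => ∑ j, Ec j (γ j) x) = fun x => ∑ j, Ec j (dzb k (γ j)) x :=
      fun k => funext fun x => by
        rw [dzb_sum k _ fun j _ => ContDiffAt.da ((hb _ (hγ j)).2 j).1.contDiffAt]
        exact Finset.sum_congr rfl fun j _ => by rw [(((hb _ (hγ j)).2 j).2.2.2.1 k).2]
    have h3 : ∀ k, Dk (dzb k fun x => ∑ j, Ec j (γ j) x) := fun k => by
      rw [h2]; exact hD (fun j k => dzb k (γ j)) (fun j k => tst_dzb (hγ j) k) k
    have h4 := ((s1 _ (hD _ h1)).2 _ h3).1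
    rw [s2 _ (ContDiff.sum fun j _ => ((hb _ (hγ j)).2 j).1) h3, add_zero] at h4
    rw [Rf, ← h4]
    congr 1
    funext k x
    rw [h2, ← Finset.sum_add_distrib, ← (hb _ (hγ k)).1 x]
    refine Finset.sum_congr rfl fun j _ => ?_
    rw [show d1 γ j k = fun z => dzb j (γ k) z - dzb k (γ j) z from rfl,
      (hadd _ _ (tst_dzb (hγ k) j) (tst_dzb (hγ j) k) j x).2, sub_add_cancel]
  · obtain ⟨h1, h2⟩ := (s1 _ (hD F hF)).2 _ (hD F' hF')
    simp only [Rf, ← h1, ← h2, fun j k x => (hadd _ _ (hF j k) (hF' j k) j x).1,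
      fun j k x => (hadd _ _ (hF j k) (hF' j k) j x).2, Finset.sum_add_distrib,
      Finset.sum_sub_distrib, and_self]
  obtain ⟨C, hC0, hC⟩ := Sf_bound L hρ hK hμ
  choose A hA0 hA using fun j => Ec_bound L.bm1 hN j
  have hS : 0 ≤ ∑ j, A j := Finset.sum_nonneg fun j _ => hA0 j
  have key : ∀ (F : Fin N → Fin N → E N → ℂ) (b : ℝ), (∀ j k, Tst (F j k)) →
      (∀ j k z, ‖F j k z‖ ≤ b ∧ ‖fderiv ℝ (F j k) z‖ ≤ b ∧ (1 < ‖z‖ → F j k z = 0)) →
        ‖Rf ρ μ F‖ ≤ C * (∑ j, A j) * b := fun F b hF H => by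
    have hb0 : 0 ≤ b := (norm_nonneg _).trans (H ⟨0, by omega⟩ ⟨0, by omega⟩ 0).1
    rw [mul_assoc, mul_comm _ b]
    refine hC _ _ (by positivity) fun k x => ⟨?_, fun l => ?_⟩
    · rw [Finset.mul_sum, Finset.sum_div]
      exact norm_sum_le_of_le _ fun j _ => hA j _ b (fun z => ⟨(H j k z).1, (H j k z).2.2⟩) x
    · rw [dz_sum l _ fun j _ => ContDiffAt.da ((hb _ (hF j k)).2 j).1.contDiffAt, Finset.mul_sum,
        Finset.sum_div]
      refine norm_sum_le_of_le _ fun j _ => ?_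
      rw [(((hb _ (hF j k)).2 j).2.2.2.1 l).1]
      refine hA j _ b (fun z => ⟨(norm_dz_le _ l z).trans (H j k z).2.1, fun hz => ?_⟩) x
      rw [dz_congr (g := fun _ => 0) ?_ l, dz_const]
      filter_upwards [(isOpen_lt continuous_const continuous_norm).mem_nhds hz] with y hy
      exact (H j k y).2.2 hy
  refine ⟨C * ∑ j, A j, by positivity, fun F b R hF hR H => ?_⟩
  have hR0 : 0 < R := by linarith
  rw [← hsc F hF R hR0, mul_assoc]
  refine key _ _ (fun j k => tst_scale (hF j k) _ hR0.ne') fun j k z => ⟨?_, ?_, fun hz => ?_⟩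
  · have hb0 : 0 ≤ b := (norm_nonneg _).trans (H j k 0).1
    rw [norm_mul, norm_real, Real.norm_of_nonneg (by positivity), mul_comm]
    exact mul_le_mul (H j k _).1 (pow_le_pow_right₀ hR (by norm_num)) (by positivity) hb0
  · rw [fderiv_const_mul (a := fun x => F j k (R • x))
      (((hF j k).1.differentiable (by simp)).fun_comp
      (differentiable_id.const_smul R) z), fderiv_comp_smul, norm_smul, norm_smul, norm_real,
      Real.norm_of_nonneg (by positivity), Real.norm_of_nonneg hR0.le]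
    calc R ^ 2 * (R * ‖fderiv ℝ (F j k) (R • z)‖) ≤ R ^ 2 * (R * b) := by
          gcongr; exact (H j k _).2.1
      _ = _ := by ring
  · rw [(H j k _).2.2, mul_zero]
    rw [norm_smul, Real.norm_of_nonneg hR0.le]
    exact lt_mul_of_one_lt_right hR0 hz

end Pool.Agent.MP_fcd29e_an.H26
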