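import Pool.Agent.MP_fcd29e_an.H26.FLW

/-!
A global section of the ideal of `K`.
-/

set_option autoImplicit false

open Pool.Agent.MP_fcd29e_an.H81 MeasureTheory Complex Set Filter Topology Metric
open scoped ContDiff ComplexConjugate ENNReal NNReal

namespace Pool.Agent.MP_fcd29e_an.H26

variable {N : ℕ} {ρ : E N → ℝ} {K : Set (E N)}

/-- Projection along complex lines onto the hyperplane `z_m = a`. -/
noncomputable def prj (m : Fin N) (a : ℂ) (z : E N) : E N := (a / z m) • z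

theorem prj_smul (m : Fin N) (a : ℂ) {c : ℂ} (hc : c ≠ 0) (z : E N) :
    prj m a (c • z) = prj m a z := by
  simp only [prj, PiLp.smul_apply, smul_eq_mul, smul_smul]
  congr 1
  by_cases h : z m = 0
  · simp [h]
  · field_simp

theorem contDiffAt_prj (m : Fin N) (a : ℂ) {z : E N} (hz : z m ≠ 0) :
    ContDiffAt ℝ ∞ (prj m a) z := by
  have : ContDiffAt ℝ ∞ (fun w : E N => a / w m) z := by
    simp only [div_eq_mul_inv]
    exact contDiffAt_const.mul ((contDiff_coord m).contDiffAt.inv hz)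
  exact this.smul contDiffAt_id

theorem fderiv_prj (m : Fin N) (a : ℂ) {z : E N} (hz : z m ≠ 0) :
    ∃ l : E N →L[ℂ] ℂ, ∀ v, fderiv ℝ (prj m a) z v = (a / z m) • v + l v • z := by
  have h1 : DifferentiableAt ℂ (fun w : E N => a / w m) z := by
    simp only [div_eq_mul_inv]
    exact ((EuclideanSpace.proj m : E N →L[ℂ] ℂ).differentiableAt.fun_inv hz).const_mul a
  refine ⟨fderiv ℂ (fun w : E N => a / w m) z, fun v => ?_⟩
  have h2 := ((h1.hasFDerivAt.fun_smul (hasFDerivAt_id z)).restrictScalars ℝ).fderiv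
  exact congrArg (fun A : E N →L[ℝ] E N => A v) h2

theorem fderiv_hol {B : Set (E N)} {f : E N → ℂ} (hf : Hol B f) {z : E N} (hz : z ∈ B) (v : E N) :
    fderiv ℝ f z v = ∑ j, v j * dz j f z := by
  simp [fderiv_eq, hf.2 _ z hz]

theorem fderiv_graph {q u z : E N} {B : Set (E N)} {f : E N → ℂ} (h : Graph ρ K q B f u)
    (hz : z ∈ B ∩ K) (v : E N) : fderiv ℝ f z v = av ρ z v / av ρ z u := by
  rw [fderiv_hol h.hol hz.1]
  simp only [h.der z hz]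
  conv_rhs => rw [av, Finset.sum_div]
  exact Finset.sum_congr rfl fun j _ => by ring

theorem piece (L : Lv0) (hc : StmtCUT) (h2 : StmtTH2) (hρ : Dom ρ) (hK : KS ρ K) {p u₀ : E N}
    {B₀ : Set (E N)} {f₀ : E N → ℂ} (hp : p ∈ K) (h₀ : Graph ρ K p B₀ f₀ u₀) :
    ∃ (σ : E N → ℂ) (χ : E N → ℝ), ContDiffOn ℝ ∞ σ (E0 N) ∧ ContDiffOn ℝ ∞ χ (E0 N) ∧
      (∀ c : ℂ, c ≠ 0 → ∀ z, σ (c • z) = σ z ∧ χ (c • z) = χ z) ∧ (∀ z, 0 ≤ χ z) ∧ 0 < χ p ∧
      ∀ q ∈ K, ∀ B f u, Graph ρ K q B f u → ∃ ψ : E N → ℂ, ∀ᶠ z in 𝓝 q,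
        ContDiffAt ℝ ∞ ψ z ∧ σ z = f z * ψ z ∧ (z ∈ K → ψ z = χ z * av ρ z u) := by
  obtain ⟨-, -, -, hd⟩ := L.pf N
  obtain ⟨-, -, h1, -⟩ := hd ρ hρ
  have hp0 : p ≠ 0 := fun h => hK.cone.1 (h ▸ hp)
  obtain ⟨m, hm⟩ : ∃ m, p m ≠ 0 := by
    by_contra h
    push Not at h
    exact hp0 (by ext i; exact h i)
  obtain ⟨U, hU⟩ : ∃ U : Set (E N), ∀ z, z ∈ U ↔ z m ≠ 0 ∧ prj m (p m) z ∈ B₀ :=
    ⟨{z | z m ≠ 0 ∧ prj m (p m) z ∈ B₀}, fun _ => Iff.rfl⟩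
  have hUo : IsOpen U := isOpen_iff_mem_nhds.2 fun z hz => by
    obtain ⟨a, b⟩ := (hU z).1 hz
    filter_upwards [(contDiff_coord m (n := ∞)).continuous.continuousAt.eventually_ne a,
      (contDiffAt_prj m (p m) a).continuousAt.preimage_mem_nhds (h₀.opn.mem_nhds b)] with y c d
    exact (hU y).2 ⟨c, d⟩
  have hUc : Cone U := ⟨fun h => ((hU 0).1 h).1 rfl, fun c hc z hz => (hU _).2
    ⟨by simpa using ⟨hc, ((hU z).1 hz).1⟩, by rw [prj_smul m _ hc]; exact ((hU z).1 hz).2⟩⟩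
  have hpU : p ∈ U := (hU p).2 ⟨hm, by simpa [prj, hm] using h₀.mem⟩
  have hz0 : ∀ z ∈ U, z ≠ 0 := fun z hz h => hUc.1 (h ▸ hz)
  have hf₀ : ∀ z ∈ U, ContDiffAt ℝ ∞ f₀ (prj m (p m) z) := fun z hz =>
    h₀.hol.1.contDiffAt (h₀.opn.mem_nhds ((hU z).1 hz).2)
  have hG : ∀ z ∈ U, ContDiffAt ℝ ∞ (fun y => f₀ (prj m (p m) y)) z := fun z hz =>
    (hf₀ z hz).comp z (contDiffAt_prj m _ ((hU z).1 hz).1)
  have hA : ∀ z ∈ U, ContDiffAt ℝ ∞ (fun y => av ρ (prj m (p m) y) u₀) z := fun z hz =>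
    (contDiffAt_av' hρ u₀ (h₀.reg ((hU z).1 hz).2).1).comp z (contDiffAt_prj m _ ((hU z).1 hz).1)
  have hdG : ∀ z ∈ U, ∀ v, fderiv ℝ (fun y => f₀ (prj m (p m) y)) z v =
      fderiv ℝ f₀ (prj m (p m) z) (fderiv ℝ (prj m (p m)) z v) := fun z hz v => by
    rw [fderiv_fun_comp z (ContDiffAt.da (hf₀ z hz))
      ((contDiffAt_prj m _ ((hU z).1 hz).1).differentiableAt (by simp))]
    rfl
  have hH : Hol U fun y => f₀ (prj m (p m) y) := by
    refine ⟨fun z hz => (hG z hz).contDiffWithinAt, fun j z hz => ?_⟩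
    obtain ⟨l, hl⟩ := fderiv_prj m (p m) ((hU z).1 hz).1
    have e : (p m / z m) • (I • ee j) + l (I • ee j) • z =
        I • ((p m / z m) • ee j + l (ee j) • z) := by
      rw [map_smul, smul_add, smul_comm, smul_assoc]
    simp only [dzb, hdG z hz, hl, e, fderiv_hol h₀.hol ((hU z).1 hz).2]
    generalize (p m / z m) • ee j + l (ee j) • z = w
    simp only [PiLp.smul_apply, smul_eq_mul, mul_assoc, ← Finset.mul_sum]
    rw [← mul_assoc, I_mul_I]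
    ring
  have hKU : ∀ z ∈ U ∩ K, prj m (p m) z ∈ B₀ ∩ K := fun z hz =>
    ⟨((hU z).1 hz.1).2, hK.cone.2 _ (div_ne_zero hm ((hU z).1 hz.1).1) z hz.2⟩
  have hdK : ∀ z ∈ U ∩ K, ∀ v, fderiv ℝ (fun y => f₀ (prj m (p m) y)) z v =
      av ρ z v / av ρ (prj m (p m) z) u₀ := fun z hz v => by
    obtain ⟨l, hl⟩ := fderiv_prj m (p m) ((hU z).1 hz.1).1
    have hc0 := div_ne_zero hm ((hU z).1 hz.1).1
    obtain ⟨e1, -, -, e2, -⟩ := h1 z (hz0 z hz.1)
    rw [hdG z hz.1, fderiv_graph h₀ (hKU z hz), hl]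
    congr 1
    simp only [prj]
    generalize p m / z m = c at hc0
    have e3 : ∀ j, dz j (cx ρ) (c • z) * (c • v + l v • z) j =
        dz j (cx ρ) z * v j + c⁻¹ * l v * (z j * dz j (cx ρ) z) := fun j => by
      rw [(e2 c hc0).1 j]
      simp only [PiLp.add_apply, PiLp.smul_apply, smul_eq_mul]
      field_simp
    simp only [av, e3, Finset.sum_add_distrib, ← Finset.mul_sum, e1, mul_zero, add_zero]
  obtain ⟨χ, χ1, χ2, χ3, χ4, χ5⟩ := (hc N U hUo hUc).1 p hpU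
  have hχ : ∀ z : E N, z ≠ 0 → ContDiffAt ℝ ∞ (cx χ) z := fun z hz =>
    contDiffAt_cx (χ1.contDiffAt (isOpen_E0.mem_nhds hz))
  refine ⟨fun z => χ z * (av ρ (prj m (p m) z) u₀ * f₀ (prj m (p m) z)), χ, fun z hz => ?_, χ1,
    fun c hc z => ⟨by simp only [χ2 c hc, prj_smul m _ hc], χ2 c hc z⟩, χ3, χ4,
    fun q hq B f u h => ?_⟩
  · refine ContDiffAt.contDiffWithinAt ?_
    by_cases hzU : z ∈ U
    · exact (hχ z hz).mul ((hA z hzU).mul (hG z hzU))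
    · refine (contDiffAt_const (c := 0)).congr_of_eventuallyEq ?_
      filter_upwards [χ5 z hz hzU] with y hy
      simp [hy]
  by_cases hqU : q ∈ U
  · obtain ⟨B', g, o1, o2, o3, o4, o5⟩ := h2 N ρ K q B f u hq h U _ hUo hqU hH fun z hz =>
      (h₀.zero _ (hKU z hz).1).2 (hKU z hz).2
    refine ⟨fun z => χ z * (av ρ (prj m (p m) z) u₀ * g z), ?_⟩
    filter_upwards [o1.mem_nhds o2] with z hz
    have hg := o4.contDiffAt (o1.mem_nhds hz)
    obtain ⟨hzB, hzU⟩ := o3 hz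
    refine ⟨(hχ z (hz0 z hzU)).mul ((hA z hzU).mul hg), by rw [o5 z hz]; ring, fun hzK => ?_⟩
    have e1 : (fun y => f₀ (prj m (p m) y)) =ᶠ[𝓝 z] fun y => g y * f y := by
      filter_upwards [o1.mem_nhds hz] with y hy using o5 y hy
    have e2 := hdK z ⟨hzU, hzK⟩ u
    rw [e1.fderiv_eq, fderiv_fun_mul (ContDiffAt.da hg)
      (ContDiffAt.da (h.hol.1.contDiffAt (h.opn.mem_nhds hzB)))] at e2
    simp only [add_apply, smul_apply, smul_eq_mul,
      fderiv_graph h ⟨hzB, hzK⟩, (h.zero z hzB).2 hzK, div_self (h.tr z hzB), zero_mul, add_zero,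
      mul_one] at e2
    rw [e2, mul_div_cancel₀ _ (h₀.tr _ ((hU z).1 hzU).2)]
  · refine ⟨fun _ => 0, ?_⟩
    filter_upwards [χ5 q (fun h => hK.cone.1 (h ▸ hq)) hqU] with y hy
    exact ⟨contDiffAt_const, by simp [hy], fun _ => by simp [hy]⟩

theorem th3 (L : Lv0) (hc : StmtCUT) (h2 : StmtTH2) : StmtTH3 := by
  intro N ρ K hρ hK hG
  choose B₀ f₀ u₀ h₀ using hG
  choose σ χ a1 a2 a3 a4 a5 a6 using fun p : K => piece L hc h2 hρ hK p.2 (h₀ p p.2)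
  have hcp : IsCompact (insert 0 K ∩ sphere (0 : E N) 1) :=
    (isCompact_sphere _ _).inter_left hK.closed
  obtain ⟨t, ht⟩ := hcp.elim_finite_subcover (fun p : K => E0 N ∩ χ p ⁻¹' Ioi 0)
    (fun p => (a2 p).continuousOn.isOpen_inter_preimage isOpen_E0 isOpen_Ioi) fun z hz => by
      have h0 : z ≠ 0 := by
        rintro rfl
        simpa using hz.2
      exact mem_iUnion.2 ⟨⟨z, hz.1.resolve_left h0⟩, h0, a5 _⟩
  refine ⟨fun z => ∑ p ∈ t, σ p z, fun z => ∑ p ∈ t, χ p z, ContDiffOn.sum fun p _ => a1 p,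
    ContDiffOn.sum fun p _ => a2 p, fun c hc z => ⟨Finset.sum_congr rfl fun p _ => (a3 p c hc z).1,
      Finset.sum_congr rfl fun p _ => (a3 p c hc z).2⟩, fun z hz => ?_, fun q hq B f u h => ?_⟩
  · have h0 : z ≠ 0 := fun h => hK.cone.1 (h ▸ hz)
    have h1 : ((‖z‖ : ℂ))⁻¹ ≠ 0 := by simpa using h0
    obtain ⟨p, hp, -, h3⟩ := mem_iUnion₂.1 (ht (show (‖z‖ : ℂ)⁻¹ • z ∈ _ from
      ⟨Or.inr (hK.cone.2 _ h1 z hz), by simp [norm_smul, h0]⟩))
    refine Finset.sum_pos' (fun p _ => a4 p z) ⟨p, hp, ?_⟩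
    rw [← (a3 p _ h1 z).2]
    exact h3
  · choose ψ hψ using fun p => a6 p q hq B f u h
    obtain ⟨B', b1, b2, b3⟩ := _root_.eventually_nhds_iff.1
      (((eventually_all_finset t).2 fun p _ => hψ p).and (h.opn.mem_nhds h.mem))
    refine ⟨B', fun z => ∑ p ∈ t, ψ p z, b2, b3, fun z hz => (b1 z hz).2,
      ContDiffOn.sum fun p hp z hz => ((b1 z hz).1 p hp).1.contDiffWithinAt, fun z hz => ?_,
      fun z hz => ?_⟩
    · rw [Finset.mul_sum]
      exact Finset.sum_congr rfl fun p hp => ((b1 z hz).1 p hp).2.1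
    · rw [ofReal_sum, Finset.sum_mul]
      exact Finset.sum_congr rfl fun p hp => ((b1 z hz.1).1 p hp).2.2 hz.2

end Pool.Agent.MP_fcd29e_an.H26
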